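import Pool.Agent.H77.AN.Dg

/-!
Project MP_e5a1a5_AS (helper77): all symmetric groups. Definitions.
`lw n u v` is the level of the smallest common block of `u, v < n` for the standard Sylow 2-subgroup of the symmetric group of degree `n`; `c2 n x`
is an invariant colouring of the points attached to a permutation `x`, `iv n x` an invariant of the double coset of `x`.
-/

set_option autoImplicit false

namespace Pool.H77.AS

open Equiv

/-- The recursion with fuel. -/
def lwF : ℕ → ℕ → ℕ → ℕ → ℕ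
  | 0, _, _, _ => 0
  | f + 1, n, u, v => if u = v then 0 else
      if u / 2 < n / 2 ∧ v / 2 < n / 2 then lwF f (n / 2) (u / 2) (v / 2) + 1 else 9

/-- The level of the smallest common block (`9` or more: there is none). -/
def lw (n u v : ℕ) : ℕ := lwF (n + 1) n u v

theorem lwF_fuel : ∀ (n f g u v : ℕ), n + 1 ≤ f → n + 1 ≤ g → lwF f n u v = lwF g n u v := by
  intro n
  induction n using Nat.strong_induction_on with
  | _ n ih =>
    intro f g u v hf hg
    obtain ⟨f', rfl⟩ : ∃ f', f = f' + 1 := ⟨f - 1, by omega⟩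
    obtain ⟨g', rfl⟩ : ∃ g', g = g' + 1 := ⟨g - 1, by omega⟩
    rw [lwF, lwF]
    by_cases h : u = v
    · rw [if_pos h, if_pos h]
    · rw [if_neg h, if_neg h]
      by_cases h2 : u / 2 < n / 2 ∧ v / 2 < n / 2
      · rw [if_pos h2, if_pos h2, ih (n / 2) (by omega) f' g' _ _ (by omega) (by omega)]
      · rw [if_neg h2, if_neg h2]

theorem lw_rec (n u v : ℕ) : lw n u v = if u = v then 0 else
    if u / 2 < n / 2 ∧ v / 2 < n / 2 then lw (n / 2) (u / 2) (v / 2) + 1 else 9 := by
  rw [lw, lwF]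
  by_cases h : u = v
  · rw [if_pos h, if_pos h]
  · rw [if_neg h, if_neg h]
    by_cases h2 : u / 2 < n / 2 ∧ v / 2 < n / 2
    · rw [if_pos h2, if_pos h2, lw, lwF_fuel (n / 2) n (n / 2 + 1) _ _ (by omega) le_rfl]
    · rw [if_neg h2, if_neg h2]

/-- `f 0 + ... + f (k - 1)` -/
def sN (f : ℕ → ℕ) : ℕ → ℕ
  | 0 => 0
  | k + 1 => sN f k + f k

theorem sN_eq (f : ℕ → ℕ) (m : ℕ) : sN f m = ∑ i ∈ Finset.range m, f i := by
  induction m with
  | zero => simp [sN]
  | succ m ih => rw [Finset.sum_range_succ, ← ih, sN]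

/-- A mixing function. -/
def FF (i j c : ℕ) : ℕ := ((c + 17) * (i * 16 + j + 3) ^ 3 + (c + 5) ^ 2 * (i * 16 + j + 1)) % 1000003

/-- First colouring. -/
def c1 (n : ℕ) (x : ℕ → ℕ) (u : ℕ) : ℕ := sN (fun v => FF (lw n u v) (lw n (x u) (x v)) 0) n

/-- Second colouring. -/
def c2 (n : ℕ) (x : ℕ → ℕ) (u : ℕ) : ℕ := sN (fun v => FF (lw n u v) (lw n (x u) (x v)) (c1 n x v)) n

/-- The invariant. -/
def iv (n : ℕ) (x : ℕ → ℕ) : ℕ := sN (fun u => (c2 n x u + 11) ^ 3 % 1000000007) n

/-- The permutation as a function: base 16 digits. -/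
def dg (X u : ℕ) : ℕ := X / 16 ^ u % 16

/-- `X` describes a permutation of `0, ..., n - 1` and `c2` takes different values. -/
def chk1 (n X : ℕ) : Bool :=
  (List.range n).all fun u => (Nat.blt (dg X u) n) && ((List.range u).all fun v => (!Nat.beq (dg X u) (dg X v)) &&
    !Nat.beq (c2 n (dg X) u) (c2 n (dg X) v))

/-- All the checks. -/
def chk (n : ℕ) (R : List ℕ) : Bool := (R.all (chk1 n)) && decide ((R.map fun X => iv n (dg X)).Nodup)

end Pool.H77.AS
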