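import Pool.Agent.H77.AS.Df

/-!
Project MP_e5a1a5_AS (helper77): the numerical inequalities for the symmetric groups of degree 5, 6, 9, 10, 12, 14, 16.
-/

set_option autoImplicit false

namespace Pool.H77.AS

open Pool.H77.AN

/-- The bounds for the bad elements: `r` representatives for the prime 2. -/
def bR (n r v p : ℕ) : ℕ := if p = 2 then n.factorial - r * 4 ^ v else
  if p = 3 ∧ n = 6 then 72 else SpS p n / (p - 1)

/-- The bounds for the bad elements, degrees 14 and 16. -/
def bE (n p : ℕ) : ℕ := if p = 2 then SpS 2 n - (n / 2).choose 2 ^ 2 * ((n - 4).factorial * 8) else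
  SpS p n / (p - 1)

theorem N5 : ∑ p ∈ (Finset.range (5 + 1)).filter Nat.Prime, bR 5 1 3 p < (5).factorial := by
  have e : (Finset.range (5 + 1)).filter Nat.Prime = {2, 3, 5} := by decide
  rw [e]
  decide +kernel

theorem N6 : ∑ p ∈ (Finset.range (6 + 1)).filter Nat.Prime, bR 6 1 4 p < (6).factorial := by
  have e : (Finset.range (6 + 1)).filter Nat.Prime = {2, 3, 5} := by decide
  rw [e]
  decide +kernel

theorem N9 : ∑ p ∈ (Finset.range (9 + 1)).filter Nat.Prime, bR 9 7 7 p < (9).factorial := by
  have e : (Finset.range (9 + 1)).filter Nat.Prime = {2, 3, 5, 7} := by decide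
  rw [e]
  decide +kernel

theorem N10 : ∑ p ∈ (Finset.range (10 + 1)).filter Nat.Prime, bR 10 6 8 p < (10).factorial := by
  have e : (Finset.range (10 + 1)).filter Nat.Prime = {2, 3, 5, 7} := by decide
  rw [e]
  decide +kernel

theorem N12 : ∑ p ∈ (Finset.range (12 + 1)).filter Nat.Prime, bR 12 41 10 p < (12).factorial := by
  have e : (Finset.range (12 + 1)).filter Nat.Prime = {2, 3, 5, 7, 11} := by decide
  rw [e]
  decide +kernel

theorem N14 : ∑ p ∈ (Finset.range (14 + 1)).filter Nat.Prime, bE 14 p < (14).factorial := by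
  have e : (Finset.range (14 + 1)).filter Nat.Prime = {2, 3, 5, 7, 11, 13} := by decide
  rw [e]
  decide +kernel

theorem N16 : ∑ p ∈ (Finset.range (16 + 1)).filter Nat.Prime, bE 16 p < (16).factorial := by
  have e : (Finset.range (16 + 1)).filter Nat.Prime = {2, 3, 5, 7, 11, 13} := by decide
  rw [e]
  decide +kernel

end Pool.H77.AS
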