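import Pool.Agent.H77.AS.Df

/-!
Project MP_e5a1a5_AS (helper77): the representatives of regular double cosets, checked by the kernel.
-/

set_option autoImplicit false

namespace Pool.H77.AS

def R5 : List ℕ := [
  201730]

def R6 : List ℕ := [
  4260405]

def R9 : List ℕ := [
  26863994226, 18547634691, 9396782166, 26158059651, 17487527991, 31459926276, 22079041896]

def R10 : List ℕ := [
  633593684340, 554161029975, 635707922310, 517849822725, 82779142440, 96377082435]

def R12 : List ℕ := [
  96349952803881, 125911709405241, 161724161041536, 195039842701911, 143285669214096, 70474631844651,
  105940858409496, 21270456912171, 171002532557856, 163966612957716, 159731310868266, 109131478968411,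
  147546935675226, 41455947683466, 204124798060371, 141869568997026, 24769954095771, 111619668480561,
  198007927108506, 25749302290776, 185100530644011, 105794327628711, 178607451604536, 54045833532426,
  21343667497536, 180459849430806, 127648955347026, 110600066179251, 127722535887621, 105800904778866,
  12178734871656, 203797323477126, 78115038201426, 91908117899796, 8467597584801, 199738092898416,
  128162775261861, 182802456451461, 199302178805766, 179634903389301, 95255051409171]

theorem chk_R5 : chk 5 R5 = true := by
  decide +kernel

theorem len_R5 : R5.length = 1 := by
  decide

theorem chk_R6 : chk 6 R6 = true := by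
  decide +kernel

theorem len_R6 : R6.length = 1 := by
  decide

theorem chk_R9 : chk 9 R9 = true := by
  decide +kernel

theorem len_R9 : R9.length = 7 := by
  decide

theorem chk_R10 : chk 10 R10 = true := by
  decide +kernel

theorem len_R10 : R10.length = 6 := by
  decide

theorem chk_R12 : chk 12 R12 = true := by
  decide +kernel

theorem len_R12 : R12.length = 41 := by
  decide

end Pool.H77.AS
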