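import Pool.Agent.H77.AN.B4
import Pool.Agent.H77.AN.D8
import Pool.Agent.H45.SY.GR3

/-!
Row S10 (project MP_e5a1a5_AS, PI helper77): degree 8, minimal intersections.
-/

set_option autoImplicit false
open scoped Classical

namespace Pool.H77.AS

open Equiv Pool.H77.AN Pool.H45.SY

private theorem s10_two {α : Type} [Fintype α] [DecidableEq α] (h : Fintype.card α = 8)
    (S : Sylow 2 (Perm α)) : Nat.card S = 128 ∧
      ∃ y : Perm α, Nat.card (itr (S : Subgroup (Perm α)) y) ≤ 2 := by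
  have _ : Fact (Nat.Prime 2) := ⟨Nat.prime_two⟩
  have h2 : Nat.factorial 8 = 2 ^ 7 * 315 := by decide
  constructor
  · rw [S.card_eq_multiplicity, Nat.card_eq_fintype_card (α := Perm α), Fintype.card_perm, h, h2,
      Nat.factorization_mul (by norm_num) (by norm_num), Nat.Prime.factorization_pow Nat.prime_two]
    rw [Finsupp.add_apply, Finsupp.single_eq_same,
      Nat.factorization_eq_zero_of_not_dvd (by norm_num : ¬ 2 ∣ 315)]
    norm_num
  have hX : Fintype.card ((Fin 2 × ZMod 2) × ZMod 2) = 8 := by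
    simp [ZMod.card]
  have e : ((Fin 2 × ZMod 2) × ZMod 2) ≃ α := Fintype.equivOfCardEq (hX.trans h.symm)
  have hc8 : Nat.card W8 = 2 ^ (Nat.card (Perm ((Fin 2 × ZMod 2) × ZMod 2))).factorization 2 := by
    unfold W8
    rw [card_WW, card_WW, Nat.card_eq_fintype_card (α := Perm ((Fin 2 × ZMod 2) × ZMod 2)), Fintype.card_perm, hX]
    rw [h2, Nat.factorization_mul (by norm_num) (by norm_num), Nat.Prime.factorization_pow Nat.prime_two,
      Finsupp.add_apply, Finsupp.single_eq_same,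
      Nat.factorization_eq_zero_of_not_dvd (by norm_num : ¬ 2 ∣ 315), Subgroup.card_top,
      Nat.card_eq_fintype_card, Fintype.card_perm, Fintype.card_prod, ZMod.card, Fintype.card_fin]
    decide
  let P8 : Sylow 2 (Perm ((Fin 2 × ZMod 2) × ZMod 2)) := Sylow.ofCard W8 hc8
  have hP8 : (P8 : Subgroup (Perm ((Fin 2 × ZMod 2) × ZMod 2))) = W8 := rfl
  obtain ⟨ψ, hψ⟩ : ∃ ψ : Perm α ≃* Perm ((Fin 2 × ZMod 2) × ZMod 2), ∀ z, Perm.sign (ψ z) = Perm.sign z :=
    ⟨e.symm.permCongrHom, fun z => Perm.sign_permCongr e.symm z⟩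
  have hS' : IsPGroup 2 ((S : Subgroup (Perm α)).map ψ.toMonoidHom) := S.isPGroup'.map _
  obtain ⟨Q, hQ⟩ := hS'.exists_le_sylow
  obtain ⟨g, hg⟩ := MulAction.exists_smul_eq (Perm ((Fin 2 × ZMod 2) × ZMod 2)) Q P8
  have hφ : ∀ a : Perm α, a ∈ (S : Subgroup (Perm α)) → g * ψ a * g⁻¹ ∈ W8 := by
    intro a ha
    have h1 : g * ψ a * g⁻¹ ∈ (P8 : Subgroup (Perm ((Fin 2 × ZMod 2) × ZMod 2))) := by
      rw [← hg, Sylow.coe_subgroup_smul]
      have h2 := Subgroup.smul_mem_pointwise_smul (ψ a) (MulAut.conj g)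
        (Q : Subgroup (Perm ((Fin 2 × ZMod 2) × ZMod 2))) (hQ (Subgroup.mem_map_of_mem _ ha))
      simpa [MulAut.smul_def, MulAut.conj_apply] using h2
    rw [hP8] at h1
    exact h1
  obtain ⟨x, hx1, hx2⟩ := key8
  obtain ⟨y, hy⟩ : ∃ y : Perm α, ψ y = g⁻¹ * x * g := ψ.surjective _
  refine ⟨y, ?_⟩
  have hz : ∀ z ∈ itr (S : Subgroup (Perm α)) y, Perm.sign z = 1 → z = 1 := by
    intro z hz hs
    rw [mem_itr] at hz
    have h1 := hφ _ hz.1
    have h2 := hφ _ hz.2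
    have h3 : g * ψ (y * z * y⁻¹) * g⁻¹ = x * (g * ψ z * g⁻¹) * x⁻¹ := by
      rw [map_mul, map_mul, map_inv, hy]
      group
    rw [h3] at h2
    have h4 : Perm.sign (g * ψ z * g⁻¹) = 1 := by
      rw [Perm.sign_mul, Perm.sign_mul, Perm.sign_inv, mul_right_comm, Int.units_mul_self, one_mul, hψ]
      exact hs
    have h5 := hx2 _ h1 h4 h2
    have h6 : ψ z = 1 := by
      have h7 : g * ψ z * g⁻¹ = g * 1 * g⁻¹ := by
        rw [h5]
        group
      exact mul_left_cancel (mul_right_cancel h7)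
    exact (map_eq_one_iff ψ ψ.injective).1 h6
  have hinj : Function.Injective
      (fun z : itr (S : Subgroup (Perm α)) y => Perm.sign (z : Perm α)) := by
    intro z z' hzz
    have hzz' : Perm.sign (z : Perm α) = Perm.sign (z' : Perm α) := hzz
    have h1 := hz _ (z * z'⁻¹).2 (by
      rw [Subgroup.coe_mul, Subgroup.coe_inv, Perm.sign_mul, Perm.sign_inv, hzz']
      exact Int.units_mul_self _)
    have h2 : z * z'⁻¹ = 1 := Subtype.ext h1
    exact mul_inv_eq_one.1 h2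
  have h9 := Nat.card_le_card_of_injective _ hinj
  rwa [Nat.card_eq_fintype_card (α := ℤˣ), show Fintype.card ℤˣ = 2 from rfl] at h9

private theorem s10_left {G : Type} [Group G] (H : Subgroup G) (s y : G) (hs : s ∈ H) :
    itr H (s * y) = itr H y := by
  ext a
  rw [mem_itr, mem_itr]
  refine and_congr_right fun _ => ?_
  constructor
  · intro ha
    have h1 := H.mul_mem (H.mul_mem (H.inv_mem hs) ha) hs
    have e : s⁻¹ * (s * y * a * (s * y)⁻¹) * s = y * a * y⁻¹ := by group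
    rwa [e] at h1
  · intro ha
    have h1 := H.mul_mem (H.mul_mem hs ha) (H.inv_mem hs)
    have e : s * (y * a * y⁻¹) * s⁻¹ = s * y * a * (s * y)⁻¹ := by group
    rwa [e] at h1

private theorem s10_fib {G : Type} [Group G] [Finite G] (H : Subgroup G) (y : G) (n : ℕ)
    (hn : Nat.card (itr H y) ≤ n) :
    Nat.card H * Nat.card H ≤ n * {x : G | Nat.card (itr H x) = Nat.card (itr H y)}.ncard := by
  have := Fintype.ofFinite G
  have _ : Fintype H := Fintype.ofFinite H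
  obtain ⟨f, hf⟩ : ∃ f : H × H → G, f = fun q => (q.1 : G) * y * (q.2 : G) := ⟨_, rfl⟩
  have h1 : (Finset.univ : Finset (H × H)).card ≤ n * (Finset.univ.image f).card := by
    apply Finset.card_le_mul_card_image
    intro a ha
    rw [Finset.mem_image] at ha
    obtain ⟨⟨s, s'⟩, -, rfl⟩ := ha
    refine le_trans ?_ hn
    have hm : ∀ q : H × H, f q = f (s, s') → (q.2 : G) * (s' : G)⁻¹ ∈ itr H y := by
      intro q hq
      rw [hf] at hq
      have hq' : (q.1 : G) * y * (q.2 : G) = s * y * s' := hq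
      rw [mem_itr]
      refine ⟨H.mul_mem q.2.2 (H.inv_mem s'.2), ?_⟩
      have h3 : y * ((q.2 : G) * (s' : G)⁻¹) * y⁻¹ = (q.1 : G)⁻¹ * ((q.1 : G) * y * (q.2 : G)) * (s' : G)⁻¹ * y⁻¹ := by
        group
      rw [h3, hq']
      have h4 : (q.1 : G)⁻¹ * (s * y * s') * (s' : G)⁻¹ * y⁻¹ = (q.1 : G)⁻¹ * s := by group
      rw [h4]
      exact H.mul_mem (H.inv_mem q.1.2) s.2
    have hinj : Function.Injective (fun q : {q : H × H // q ∈ Finset.univ.filter fun q => f q = f (s, s')} =>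
        (⟨(q.1.2 : G) * (s' : G)⁻¹, hm q.1 (Finset.mem_filter.1 q.2).2⟩ : itr H y)) := by
      rintro ⟨q, hq⟩ ⟨r, hr⟩ hqr
      have h5 : (q.2 : G) * (s' : G)⁻¹ = (r.2 : G) * (s' : G)⁻¹ := congrArg Subtype.val hqr
      have h6 : (q.2 : G) = r.2 := mul_right_cancel h5
      have h7 : f q = f r := (Finset.mem_filter.1 hq).2.trans (Finset.mem_filter.1 hr).2.symm
      rw [hf] at h7
      have h8 : (q.1 : G) * y * (q.2 : G) = r.1 * y * r.2 := h7
      rw [h6] at h8
      have h9 : (q.1 : G) = r.1 := mul_right_cancel (mul_right_cancel h8)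
      exact Subtype.ext (Prod.ext (Subtype.ext h9) (Subtype.ext h6))
    have h10 := Nat.card_le_card_of_injective _ hinj
    rwa [Nat.card_eq_fintype_card, Fintype.card_coe] at h10
  rw [Finset.card_univ, Fintype.card_prod, ← Nat.card_eq_fintype_card] at h1
  refine h1.trans (Nat.mul_le_mul_left n ?_)
  rw [← Set.ncard_coe_finset]
  apply Set.ncard_le_ncard _ (Set.toFinite _)
  intro x hx
  rw [Finset.mem_coe, Finset.mem_image] at hx
  obtain ⟨⟨s, s'⟩, -, rfl⟩ := hx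
  rw [hf]
  show Nat.card (itr H ((s : G) * y * (s' : G))) = Nat.card (itr H y)
  rw [card_itr_mul H _ _ s'.2, s10_left H _ _ s.2]

private theorem s10_bad {α : Type} [Fintype α] [DecidableEq α] (h : Fintype.card α = 8) {p : ℕ}
    (hp : p.Prime) (S : Sylow p (Perm α)) :
    {x : Perm α | ∃ a ∈ (S : Subgroup (Perm α)), x * a * x⁻¹ ∈ (S : Subgroup (Perm α)) ∧ a ≠ 1}.ncard ≤
      SpS p 8 / (p - 1) := by
  have h1 := bad_countS hp (S : Subgroup (Perm α)) S.isPGroup'
  rw [h] at h1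
  have h2 := hp.two_le
  rw [Nat.le_div_iff_mul_le (by omega), mul_comm]
  exact h1

theorem q1_8 {α : Type} [Fintype α] [DecidableEq α] (h : Fintype.card α = 8)
    (S : ∀ q : Nat.Primes, Sylow (q : ℕ) (Perm α)) : ∃ x : Perm α, ∀ q, ∀ g : Perm α,
      Nat.card (itr (S q : Subgroup (Perm α)) x) ≤ Nat.card (itr (S q : Subgroup (Perm α)) g) := by
  obtain ⟨hc, y₁, hy₁⟩ := s10_two h (S ⟨2, Nat.prime_two⟩)
  obtain ⟨y, hy⟩ := Finite.exists_min fun x : Perm α =>
    Nat.card (itr (S ⟨2, Nat.prime_two⟩ : Subgroup (Perm α)) x)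
  have h1 := s10_fib (S ⟨2, Nat.prime_two⟩ : Subgroup (Perm α)) y 2 ((hy y₁).trans hy₁)
  have hc' : Nat.card ((S ⟨2, Nat.prime_two⟩ : Sylow 2 (Perm α)) : Subgroup (Perm α)) = 128 := hc
  rw [hc'] at h1
  have hb : ∀ p (hp : p.Prime), {x : Perm α | ∃ a ∈ (S ⟨p, hp⟩ : Subgroup (Perm α)),
      x * a * x⁻¹ ∈ (S ⟨p, hp⟩ : Subgroup (Perm α)) ∧ a ≠ 1}.ncard ≤ SpS p 8 / (p - 1) :=
    fun p hp => s10_bad h hp (S ⟨p, hp⟩)
  have p3 : Nat.Prime 3 := by norm_num
  have p5 : Nat.Prime 5 := by norm_num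
  have p7 : Nat.Prime 7 := by norm_num
  have hsum : SpS 3 8 / (3 - 1) + SpS 5 8 / (5 - 1) + SpS 7 8 / (7 - 1) < 8192 := by decide +kernel
  obtain ⟨F, hF⟩ : ∃ F : ∀ p : ℕ, p.Prime → Set (Perm α), F = fun p hp =>
      {x : Perm α | ∃ a ∈ (S ⟨p, hp⟩ : Subgroup (Perm α)),
        x * a * x⁻¹ ∈ (S ⟨p, hp⟩ : Subgroup (Perm α)) ∧ a ≠ 1} := ⟨_, rfl⟩
  obtain ⟨x, hx, hx'⟩ : ∃ x : Perm α, Nat.card (itr (S ⟨2, Nat.prime_two⟩ : Subgroup (Perm α)) x) =
      Nat.card (itr (S ⟨2, Nat.prime_two⟩ : Subgroup (Perm α)) y) ∧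
      x ∉ F 3 p3 ∪ F 5 p5 ∪ F 7 p7 := by
    by_contra hcon
    push Not at hcon
    have h2 := Set.ncard_le_ncard (s := {x : Perm α |
      Nat.card (itr (S ⟨2, Nat.prime_two⟩ : Subgroup (Perm α)) x) =
      Nat.card (itr (S ⟨2, Nat.prime_two⟩ : Subgroup (Perm α)) y)}) (t := F 3 p3 ∪ F 5 p5 ∪ F 7 p7)
      (fun x hx => hcon x hx) (Set.toFinite _)
    have h3 := Set.ncard_union_le (F 3 p3 ∪ F 5 p5) (F 7 p7)
    have h4 := Set.ncard_union_le (F 3 p3) (F 5 p5)
    have h5 : (F 3 p3).ncard ≤ SpS 3 8 / (3 - 1) := by rw [hF]; exact hb 3 p3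
    have h6 : (F 5 p5).ncard ≤ SpS 5 8 / (5 - 1) := by rw [hF]; exact hb 5 p5
    have h7 : (F 7 p7).ncard ≤ SpS 7 8 / (7 - 1) := by rw [hF]; exact hb 7 p7
    omega
  refine ⟨x, fun q g => ?_⟩
  have hpos : ∀ g : Perm α, 1 ≤ Nat.card (itr (S q : Subgroup (Perm α)) g) := fun g => Nat.card_pos
  have hbot : (∀ a ∈ (S q : Subgroup (Perm α)), x * a * x⁻¹ ∈ (S q : Subgroup (Perm α)) → a = 1) →
      Nat.card (itr (S q : Subgroup (Perm α)) x) = 1 := by
    intro hq
    have h2 : itr (S q : Subgroup (Perm α)) x = ⊥ := by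
      rw [eq_bot_iff]
      intro a ha
      rw [mem_itr] at ha
      rw [Subgroup.mem_bot]
      exact hq a ha.1 ha.2
    rw [h2]
    exact Subgroup.card_bot
  obtain ⟨q, hq⟩ := q
  by_cases hq8 : q ≤ 8
  · have hcase : q = 2 ∨ q = 3 ∨ q = 5 ∨ q = 7 := by
      interval_cases q
      · exact absurd hq (by norm_num)
      · exact absurd hq (by norm_num)
      · exact Or.inl rfl
      · exact Or.inr (Or.inl rfl)
      · exact absurd hq (by norm_num)
      · exact Or.inr (Or.inr (Or.inl rfl))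
      · exact absurd hq (by norm_num)
      · exact Or.inr (Or.inr (Or.inr rfl))
      · exact absurd hq (by norm_num)
    have hgood : ∀ (hp : q.Prime), x ∉ F q hp → ∀ a ∈ (S ⟨q, hq⟩ : Subgroup (Perm α)),
        x * a * x⁻¹ ∈ (S ⟨q, hq⟩ : Subgroup (Perm α)) → a = 1 := by
      intro hp hxF a ha hxa
      by_contra ha1
      apply hxF
      rw [hF]
      exact ⟨a, ha, hxa, ha1⟩
    rcases hcase with rfl | rfl | rfl | rfl
    · rw [hx]
      exact hy g
    · rw [hbot (hgood hq fun hm => hx' (Or.inl (Or.inl hm)))]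
      exact hpos g
    · rw [hbot (hgood hq fun hm => hx' (Or.inl (Or.inr hm)))]
      exact hpos g
    · rw [hbot (hgood hq fun hm => hx' (Or.inr hm))]
      exact hpos g
  · rw [hbot ?_]
    · exact hpos g
    intro a ha _
    have hpf : Fact q.Prime := ⟨hq⟩
    have h3 := Sylow.card_eq_multiplicity (S ⟨q, hq⟩ : Sylow q (Perm α))
    rw [Nat.card_eq_fintype_card (α := Perm α), Fintype.card_perm,
      Nat.factorization_eq_zero_of_not_dvd (fun hd => by
        have := (Nat.Prime.dvd_factorial hq).1 hd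
        omega), pow_zero] at h3
    have h4 : (S ⟨q, hq⟩ : Subgroup (Perm α)) = ⊥ := Subgroup.eq_bot_of_card_eq _ h3
    rw [h4, Subgroup.mem_bot] at ha
    exact ha

end Pool.H77.AS
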