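import Pool.Agent.H45.SY.GR3

/-!
Row S11 (project MP_e5a1a5_AS, PI helper77): the property `Str` for groups of order `6`, `12`, `24` (helper90).

A Sylow 2-subgroup `A` has index 3; for `z ∉ A` the group `A ∩ z⁻¹ A z` fixes two of the three cosets of `A`, so all of them, so it is the normal core of `A`.
A Sylow 3-subgroup `B` has order 3, so `B ∩ z⁻¹ B z` is trivial or `z` normalizes `B`. Two proper subgroups do not cover the group.
-/

set_option autoImplicit false
open scoped Classical

namespace Pool.H77.AS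

open Equiv Pool.H45.SY

/-- A permutation of three points which fixes two points is the identity. -/
private theorem perm_three {α : Type} [Finite α] (h3 : Nat.card α = 3) (σ : Perm α) {p r : α} (hpr : p ≠ r)
    (hp : σ p = p) (hr : σ r = r) (x : α) : σ x = x := by
  have := Fintype.ofFinite α
  by_contra hx
  have h1 : x ≠ p := fun h => hx (by rw [h, hp])
  have h2 : x ≠ r := fun h => hx (by rw [h, hr])
  have h4 : σ x ≠ p := fun h => h1 (σ.injective (h.trans hp.symm))
  have h5 : σ x ≠ r := fun h => h2 (σ.injective (h.trans hr.symm))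
  have h6 : ({p, r, x, σ x} : Finset α).card = 4 := by
    rw [Finset.card_insert_of_notMem, Finset.card_insert_of_notMem, Finset.card_insert_of_notMem,
      Finset.card_singleton]
    · rw [Finset.mem_singleton]
      exact fun h => hx h.symm
    · rw [Finset.mem_insert, Finset.mem_singleton]
      rintro (h | h)
      · exact h2 h.symm
      · exact h5 h.symm
    · rw [Finset.mem_insert, Finset.mem_insert, Finset.mem_singleton]
      rintro (h | h | h)
      · exact hpr h
      · exact h1 h.symm
      · exact h4 h.symm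
  have h7 := Finset.card_le_univ ({p, r, x, σ x} : Finset α)
  rw [h6, ← Nat.card_eq_fintype_card, h3] at h7
  omega

/-- For a subgroup `A` of index 3 and `z ∉ A` the intersection is the normal core. -/
private theorem itr_core {G : Type} [Group G] [Finite G] (A : Subgroup G) (hA : A.index = 3) {z : G} (hz : z ∉ A) :
    (itr A z).Normal := by
  have e : itr A z = A.normalCore := by
    apply le_antisymm
    · intro a ha
      rw [mem_itr] at ha
      rw [Subgroup.normalCore_eq_ker, MonoidHom.mem_ker]
      have hc : Nat.card (G ⧸ A) = 3 := hA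
      ext x
      refine perm_three hc _ (p := ((1 : G) : G ⧸ A)) (r := ((z⁻¹ : G) : G ⧸ A)) ?_ ?_ ?_ x
      · intro h
        rw [QuotientGroup.eq] at h
        apply hz
        have h2 : z⁻¹ ∈ A := by simpa using h
        exact (Subgroup.inv_mem_iff A).1 h2
      · show ((a * 1 : G) : G ⧸ A) = ((1 : G) : G ⧸ A)
        rw [QuotientGroup.eq]
        simpa using ha.1
      · show ((a * z⁻¹ : G) : G ⧸ A) = ((z⁻¹ : G) : G ⧸ A)
        rw [QuotientGroup.eq]
        have h2 : (a * z⁻¹)⁻¹ * z⁻¹ = (z * a * z⁻¹)⁻¹ := by group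
        rw [h2]
        exact (Subgroup.inv_mem_iff A).2 ha.2
    · intro a ha
      rw [mem_itr]
      exact ⟨A.normalCore_le ha, A.normalCore_le (A.normalCore_normal.conj_mem a ha z)⟩
  rw [e]
  exact A.normalCore_normal

/-- For a subgroup of order 3 the intersection is trivial or `z` normalizes it. -/
private theorem itr_three {G : Type} [Group G] [Finite G] (B : Subgroup G) (hB : Nat.card B = 3) {z : G}
    (hz : z ∉ Subgroup.normalizer (B : Set G)) : (itr B z).Normal := by
  have e : itr B z = ⊥ := by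
    rw [eq_bot_iff]
    intro x hx
    rw [Subgroup.mem_bot]
    by_contra hx1
    apply hz
    rw [mem_itr] at hx
    have := Fact.mk Nat.prime_three
    have hgen : ∀ b ∈ B, b ∈ Subgroup.zpowers x := by
      intro b hb
      have h1 : (⟨b, hb⟩ : B) ∈ Subgroup.zpowers (⟨x, hx.1⟩ : B) := by
        apply mem_zpowers_of_prime_card hB
        intro h2
        exact hx1 (congrArg Subtype.val h2)
      rw [Subgroup.mem_zpowers_iff] at h1 ⊢
      obtain ⟨k, hk⟩ := h1
      refine ⟨k, ?_⟩
      have h3 := congrArg Subtype.val hk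
      simpa using h3
    have hle : B.map (MulAut.conj z).toMonoidHom ≤ B := by
      rintro y ⟨b, hb, rfl⟩
      obtain ⟨k, rfl⟩ := Subgroup.mem_zpowers_iff.1 (hgen b hb)
      rw [map_zpow]
      exact B.zpow_mem hx.2 k
    have heq : B.map (MulAut.conj z).toMonoidHom = B := by
      apply Subgroup.eq_of_le_of_card_ge hle
      rw [Subgroup.card_map_of_injective (MulAut.conj z).injective]
    rw [Subgroup.mem_normalizer_iff]
    intro b
    constructor
    · intro hb
      exact hle ⟨b, hb, rfl⟩
    · intro hb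
      have h4 : z * b * z⁻¹ ∈ B.map (MulAut.conj z).toMonoidHom := by rw [heq]; exact hb
      obtain ⟨c, hc, hcb⟩ := h4
      have h5 : c = b := by
        apply (MulAut.conj z).injective
        exact hcb
      rw [← h5]
      exact hc
  rw [e]
  infer_instance

/-- A group of order `3 * 2 ^ k`, `k ≤ 3`. -/
theorem str_small {G : Type} [Group G] [Finite G] (h : Nat.card G = 6 ∨ Nat.card G = 12 ∨ Nat.card G = 24) : Str G := by
  intro S
  have h24 : Nat.card G ∣ 24 := by
    rcases h with h | h | h <;> rw [h] <;> decide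
  have h3G : 3 ∣ Nat.card G := by
    rcases h with h | h | h <;> rw [h] <;> decide
  have hA : (S ⟨2, Nat.prime_two⟩ : Subgroup G).index = 3 := by
    have := Fact.mk Nat.prime_two
    obtain ⟨i, hi⟩ := IsPGroup.iff_card.1 (S ⟨2, Nat.prime_two⟩).isPGroup'
    have h1 : ¬ 2 ∣ (S ⟨2, Nat.prime_two⟩ : Subgroup G).index := (S ⟨2, Nat.prime_two⟩).not_dvd_index
    have h2 := (S ⟨2, Nat.prime_two⟩ : Subgroup G).card_mul_index
    have h4 : (S ⟨2, Nat.prime_two⟩ : Subgroup G).index ∣ 24 := (Subgroup.index_dvd_card _).trans h24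
    have h5 : 3 ∣ (S ⟨2, Nat.prime_two⟩ : Subgroup G).index := by
      rw [← h2] at h3G
      rcases (Nat.prime_three.dvd_mul).1 h3G with h6 | h6
      · exfalso
        have h7 : Nat.card (S ⟨2, Nat.prime_two⟩ : Subgroup G) = 2 ^ i := hi
        rw [h7] at h6
        have := Nat.prime_three.dvd_of_dvd_pow h6
        omega
      · exact h6
    generalize (S ⟨2, Nat.prime_two⟩ : Subgroup G).index = n at h1 h4 h5
    have h8 : n ≤ 24 := Nat.le_of_dvd (by norm_num) h4
    interval_cases n <;> omega
  have hB : Nat.card (S ⟨3, Nat.prime_three⟩ : Subgroup G) = 3 := by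
    have := Fact.mk Nat.prime_three
    obtain ⟨i, hi⟩ := IsPGroup.iff_card.1 (S ⟨3, Nat.prime_three⟩).isPGroup'
    have h1 : ¬ 3 ∣ (S ⟨3, Nat.prime_three⟩ : Subgroup G).index := (S ⟨3, Nat.prime_three⟩).not_dvd_index
    have h2 := (S ⟨3, Nat.prime_three⟩ : Subgroup G).card_mul_index
    have h7 : Nat.card (S ⟨3, Nat.prime_three⟩ : Subgroup G) = 3 ^ i := hi
    rw [h7] at h2 ⊢
    rcases Nat.lt_or_ge i 2 with h8 | h8
    · interval_cases i
      · rw [pow_zero, one_mul] at h2
        rw [h2] at h1
        exact absurd h3G h1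
      · norm_num
    · exfalso
      have h9 : 3 ^ 2 ∣ 24 := ((pow_dvd_pow 3 h8).trans ⟨_, h2.symm⟩).trans h24
      omega
  have hbig : ∀ q : Nat.Primes, (q : ℕ) ≠ 2 → (q : ℕ) ≠ 3 → (S q : Subgroup G) = ⊥ := by
    intro q h2 h3
    have := Fact.mk q.2
    obtain ⟨i, hi⟩ := IsPGroup.iff_card.1 (S q).isPGroup'
    have h7 : Nat.card (S q : Subgroup G) = (q : ℕ) ^ i := hi
    rw [← Subgroup.card_eq_one, h7]
    rcases Nat.eq_zero_or_pos i with h8 | h8
    · rw [h8, pow_zero]
    · exfalso
      have h9 : (q : ℕ) ∣ 24 := ((dvd_pow_self (q : ℕ) (by omega)).trans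
        ⟨_, (h7 ▸ (S q : Subgroup G).card_mul_index).symm⟩).trans h24
      have h10 : (q : ℕ) ∣ 2 ^ 3 * 3 := by norm_num; exact h9
      rcases (q.2.dvd_mul).1 h10 with h11 | h11
      · exact h2 ((Nat.prime_dvd_prime_iff_eq q.2 Nat.prime_two).1 (q.2.dvd_of_dvd_pow h11))
      · exact h3 ((Nat.prime_dvd_prime_iff_eq q.2 Nat.prime_three).1 h11)
  have fin : ∀ z : G, z ∉ (S ⟨2, Nat.prime_two⟩ : Subgroup G) →
      (itr (S ⟨3, Nat.prime_three⟩ : Subgroup G) z).Normal → ∀ q, (itr (S q : Subgroup G) z).Normal := by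
    intro z hz hz3 q
    by_cases h2 : (q : ℕ) = 2
    · have e : q = ⟨2, Nat.prime_two⟩ := Subtype.ext h2
      subst e
      exact itr_core _ hA hz
    · by_cases h3 : (q : ℕ) = 3
      · have e : q = ⟨3, Nat.prime_three⟩ := Subtype.ext h3
        subst e
        exact hz3
      · have e : itr (S q : Subgroup G) z = ⊥ := by
          rw [eq_bot_iff, ← hbig q h2 h3]
          exact inf_le_left
        rw [e]
        infer_instance
  have hAne : ∃ a, a ∉ (S ⟨2, Nat.prime_two⟩ : Subgroup G) := by
    by_contra hcon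
    push Not at hcon
    have : (S ⟨2, Nat.prime_two⟩ : Subgroup G) = ⊤ := by
      rw [eq_top_iff]
      intro x _
      exact hcon x
    rw [this, Subgroup.index_top] at hA
    omega
  obtain ⟨a, ha⟩ := hAne
  by_cases hN : Subgroup.normalizer ((S ⟨3, Nat.prime_three⟩ : Subgroup G) : Set G) = ⊤
  · refine ⟨a, fin a ha ?_⟩
    have hn : (S ⟨3, Nat.prime_three⟩ : Subgroup G).Normal := Subgroup.normalizer_eq_top_iff.1 hN
    have e : itr (S ⟨3, Nat.prime_three⟩ : Subgroup G) a = (S ⟨3, Nat.prime_three⟩ : Subgroup G) := by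
      ext x
      rw [mem_itr]
      exact ⟨fun h => h.1, fun h => ⟨h, hn.conj_mem x h a⟩⟩
    rw [e]
    exact hn
  · have hb : ∃ b, b ∉ Subgroup.normalizer ((S ⟨3, Nat.prime_three⟩ : Subgroup G) : Set G) := by
      by_contra hcon
      push Not at hcon
      apply hN
      rw [eq_top_iff]
      intro x _
      exact hcon x
    obtain ⟨b, hb⟩ := hb
    by_cases ha2 : a ∈ Subgroup.normalizer ((S ⟨3, Nat.prime_three⟩ : Subgroup G) : Set G)
    · by_cases hb2 : b ∈ (S ⟨2, Nat.prime_two⟩ : Subgroup G)
      · refine ⟨a * b, fin _ ?_ (itr_three _ hB ?_)⟩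
        · intro h1
          apply ha
          have := (S ⟨2, Nat.prime_two⟩ : Subgroup G).mul_mem h1 ((S ⟨2, Nat.prime_two⟩ : Subgroup G).inv_mem hb2)
          simpa using this
        · intro h1
          apply hb
          have := Subgroup.mul_mem _ (Subgroup.inv_mem _ ha2) h1
          simpa using this
      · exact ⟨b, fin _ hb2 (itr_three _ hB hb)⟩
    · exact ⟨a, fin _ ha (itr_three _ hB ha2)⟩

end Pool.H77.AS
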