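import Pool.Agent.H77.AS.S2

/-!
Row S3 (project MP_e5a1a5_AS, PI helper77), about 60 lines (uses the STATEMENT of S2): an arbitrary Sylow 2-subgroup is a conjugate of the standard one.

PROOF. Any `e₀ : α ≃ Fin n` (`Fintype.equivFinOfCardEq h`); the image `Q` of `S` in `Perm (Fin n)` under `e₀.permCongrHom` is a 2-group, contained in a Sylow 2-subgroup (`IsPGroup.exists_le_sylow`; or `Sylow.mapSurjective`), `W` of `exists_W` is a Sylow subgroup
(`Sylow.ofCard`), so `g Q g⁻¹ ≤ W` (`MulAction.exists_smul_eq`, compare `nz_le_fin` in `Pool/Agent/H77/AN/A5.lean`), with equality since `Nat.card S = 2 ^ n.factorial.factorization 2` (`Sylow.card_eq_multiplicity`, `Nat.card_perm`/`Fintype.card_perm`). `e := e₀.trans g`;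
`e.permCongr z = g * e₀.permCongr z * g⁻¹`.
-/

set_option autoImplicit false
open scoped Classical

namespace Pool.H77.AS

open Equiv Pool.H77.AN

theorem S3_conj_mem {G : Type} [Group G] (P Q : Sylow 2 G) (g : G) (hg : g • Q = P) (z : G) :
    g * z * g⁻¹ ∈ (P : Subgroup G) ↔ z ∈ (Q : Subgroup G) := by
  rw [← hg, Sylow.coe_subgroup_smul]
  have h := @Subgroup.smul_mem_pointwise_smul_iff _ _ _ _ _ (MulAut.conj g) (Q : Subgroup G) z
  rw [MulAut.smul_def, MulAut.conj_apply] at h
  exact h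

theorem S3_trans {α : Type} {n : ℕ} (e : α ≃ Fin n) (g : Perm (Fin n)) (z : Perm α) :
    (e.trans g).permCongr z = g * e.permCongr z * g⁻¹ := by
  ext a
  simp [Equiv.permCongr_apply, Perm.mul_apply, Perm.inv_def]

theorem S3_swap {α : Type} {n : ℕ} [DecidableEq α] (e : α ≃ Fin n) (a b : Fin n) :
    e.permCongr (swap (e.symm a) (e.symm b)) = swap a b := by
  have h := Equiv.symm_trans_swap_trans (e.symm a) (e.symm b) e
  rw [Equiv.apply_symm_apply, Equiv.apply_symm_apply] at h
  exact h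

theorem syl_conj {n : ℕ} {α : Type} [Fintype α] [DecidableEq α] (h : Fintype.card α = n) (S : Sylow 2 (Perm α)) :
    Nat.card (S : Subgroup (Perm α)) = 2 ^ n.factorial.factorization 2 ∧
    ∃ e : α ≃ Fin n, (∀ z ∈ (S : Subgroup (Perm α)), Pres (e.permCongr z)) ∧
      ∀ (i : ℕ) (h : 2 * i + 1 < n),
        swap (e.symm (⟨2 * i, by omega⟩ : Fin n)) (e.symm ⟨2 * i + 1, h⟩) ∈ (S : Subgroup (Perm α)) := by
  haveI : Fact (Nat.Prime 2) := ⟨Nat.prime_two⟩
  have hcS : Nat.card (S : Subgroup (Perm α)) = 2 ^ n.factorial.factorization 2 := by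
    rw [Sylow.card_eq_multiplicity, Nat.card_eq_fintype_card, Fintype.card_perm, h]
  refine ⟨hcS, ?_⟩
  obtain ⟨W, hW1, hW2, hW3⟩ := exists_W n
  have hcard : Nat.card W = 2 ^ (Nat.card (Perm (Fin n))).factorization 2 := by
    rw [hW1, Nat.card_eq_fintype_card, Fintype.card_perm, Fintype.card_fin]
  let P : Sylow 2 (Perm (Fin n)) := Sylow.ofCard W hcard
  have hP : (P : Subgroup (Perm (Fin n))) = W := rfl
  let e₀ : α ≃ Fin n := Fintype.equivFinOfCardEq h
  let S' : Subgroup (Perm (Fin n)) := (S : Subgroup (Perm α)).map e₀.permCongrHom.toMonoidHom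
  have hS' : IsPGroup 2 S' := S.isPGroup'.map _
  have hcS' : Nat.card S' = 2 ^ n.factorial.factorization 2 := by
    rw [← hcS]
    exact (Nat.card_congr ((S : Subgroup (Perm α)).equivMapOfInjective _ e₀.permCongrHom.injective).toEquiv).symm
  obtain ⟨Q, hQ⟩ := hS'.exists_le_sylow
  have hcQ : Nat.card (Q : Subgroup (Perm (Fin n))) = 2 ^ n.factorial.factorization 2 := by
    rw [Sylow.card_eq_multiplicity, Nat.card_eq_fintype_card, Fintype.card_perm, Fintype.card_fin]
  have hSQ : S' = (Q : Subgroup (Perm (Fin n))) :=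
    Subgroup.eq_of_le_of_card_ge hQ (by rw [hcQ, hcS'])
  obtain ⟨g, hg⟩ := MulAction.exists_smul_eq (Perm (Fin n)) Q P
  have key : ∀ z : Perm α, (e₀.trans g).permCongr z ∈ W ↔ z ∈ (S : Subgroup (Perm α)) := by
    intro z
    rw [S3_trans, ← hP, S3_conj_mem P Q g hg, ← hSQ]
    constructor
    · rintro ⟨y, hy, hyz⟩
      have : y = z := e₀.permCongrHom.injective hyz
      rw [← this]
      exact hy
    · intro hz
      exact ⟨z, hz, rfl⟩
  refine ⟨e₀.trans g, fun z hz => hW2 _ ((key z).2 hz), fun i hi => ?_⟩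
  rw [← key, S3_swap]
  exact hW3 i hi

end Pool.H77.AS
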