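import Pool.Agent.H77.AS.S4

/-!
Row S5 (project MP_e5a1a5_AS, PI helper77), about 80 lines (uses only the definition `fn` of S4): from the kernel check to permutations.

PROOF. `chk n R = true`: for `X ∈ R`, `chk1 n X = true`: for `u < n`: `dg X u < n`, and for `v < u`: `dg X u ≠ dg X v`, `c2 n (dg X) u ≠ c2 n (dg X) v` (`List.all_eq_true`, `List.mem_range`, `Bool.and_eq_true`, `Nat.blt_eq`, `Nat.beq_eq`...). So `u ↦ dg X u` is an injective map
`Fin n → Fin n`, a permutation `x` (`Equiv.ofBijective`, `Finite.injective_iff_bijective`), with `fn x u = dg X u` for `u < n`, so `c1 n (fn x) u = c1 n (dg X) u`, `c2 n (fn x) u = c2 n (dg X) u` for `u < n` and `iv n (fn x) = iv n (dg X)` (they only use the values at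
`u, v < n`; `sN_eq`, `Finset.sum_congr`). Take `x k` for `X = R.get k`; `List.Nodup` of the map (`List.nodup_iff_injective_get` or `List.Nodup.get_inj_iff`) gives the last claim.
-/

set_option autoImplicit false

namespace Pool.H77.AS

open Equiv

private theorem sN_congr {f g : ℕ → ℕ} : ∀ {m : ℕ}, (∀ v, v < m → f v = g v) → sN f m = sN g m := by
  intro m
  induction m with
  | zero => intro _; rfl
  | succ m ih =>
    intro h
    rw [sN, sN, ih (fun v hv => h v (by omega)), h m (by omega)]

private theorem c1_congr {n : ℕ} {x y : ℕ → ℕ} (h : ∀ v, v < n → x v = y v) {u : ℕ} (hu : u < n) :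
    c1 n x u = c1 n y u := by
  unfold c1
  exact sN_congr fun v hv => by rw [h u hu, h v hv]

private theorem c2_congr {n : ℕ} {x y : ℕ → ℕ} (h : ∀ v, v < n → x v = y v) {u : ℕ} (hu : u < n) :
    c2 n x u = c2 n y u := by
  unfold c2
  exact sN_congr fun v hv => by rw [h u hu, h v hv, c1_congr h hv]

private theorem iv_congr {n : ℕ} {x y : ℕ → ℕ} (h : ∀ v, v < n → x v = y v) :
    iv n x = iv n y := by
  unfold iv
  exact sN_congr fun u hu => by rw [c2_congr h hu]

private theorem one_of_chk {n X : ℕ} (h : chk1 n X = true) : ∃ x : Perm (Fin n),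
    (∀ v, v < n → fn x v = dg X v) ∧ Function.Injective fun u : Fin n => c2 n (fn x) u := by
  unfold chk1 at h
  rw [List.all_eq_true] at h
  have h1 : ∀ u, u < n → dg X u < n ∧ ∀ v, v < u → dg X u ≠ dg X v ∧
      c2 n (dg X) u ≠ c2 n (dg X) v := by
    intro u hu
    have h2 := h u (List.mem_range.2 hu)
    rw [Bool.and_eq_true, List.all_eq_true] at h2
    refine ⟨by simpa [Nat.blt_eq] using h2.1, fun v hv => ?_⟩
    have h3 := h2.2 v (List.mem_range.2 hv)
    rw [Bool.and_eq_true] at h3
    constructor
    · intro h4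
      have h5 := h3.1
      rw [h4] at h5
      simp at h5
    · intro h4
      have h5 := h3.2
      rw [h4] at h5
      simp at h5
  have hinj : ∀ u v : ℕ, u < n → v < n → dg X u = dg X v → u = v := by
    intro u v hu hv huv
    rcases lt_trichotomy u v with h2 | h2 | h2
    · exact absurd huv.symm ((h1 v hv).2 u h2).1
    · exact h2
    · exact absurd huv ((h1 u hu).2 v h2).1
  have hinj2 : ∀ u v : ℕ, u < n → v < n → c2 n (dg X) u = c2 n (dg X) v → u = v := by
    intro u v hu hv huv
    rcases lt_trichotomy u v with h2 | h2 | h2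
    · exact absurd huv.symm ((h1 v hv).2 u h2).2
    · exact h2
    · exact absurd huv ((h1 u hu).2 v h2).2
  have hf : Function.Injective fun u : Fin n => (⟨dg X u, (h1 u u.2).1⟩ : Fin n) := by
    intro u v huv
    exact Fin.ext (hinj u v u.2 v.2 (congrArg Fin.val huv))
  have hx : ∀ v, v < n → fn (Equiv.ofBijective _ (Finite.injective_iff_bijective.1 hf)) v =
      dg X v := by
    intro v hv
    unfold fn
    rw [dif_pos hv]
    rfl
  refine ⟨Equiv.ofBijective _ (Finite.injective_iff_bijective.1 hf), hx, ?_⟩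
  intro u v huv
  simp only at huv
  rw [c2_congr hx u.2, c2_congr hx v.2] at huv
  exact Fin.ext (hinj2 u v u.2 v.2 huv)

theorem of_chk {n : ℕ} {R : List ℕ} (h : chk n R = true) : ∃ x : Fin R.length → Perm (Fin n),
    (∀ k, Function.Injective fun u : Fin n => c2 n (fn (x k)) u) ∧
      Function.Injective fun k => iv n (fn (x k)) := by
  unfold chk at h
  rw [Bool.and_eq_true, List.all_eq_true, decide_eq_true_eq] at h
  obtain ⟨h1, h2⟩ := h
  choose x hx1 hx2 using fun k : Fin R.length => one_of_chk (h1 (R.get k) (List.get_mem R k))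
  refine ⟨x, hx2, ?_⟩
  intro k l hkl
  simp only at hkl
  rw [iv_congr (hx1 k), iv_congr (hx1 l)] at hkl
  have h3 := List.inj_on_of_nodup_map h2 (List.get_mem R k) (List.get_mem R l) hkl
  have h4 : R.Nodup := List.Nodup.of_map _ h2
  exact (List.nodup_iff_injective_get.1 h4) h3

end Pool.H77.AS
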