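import Pool.Agent.H77.AS.S1
import Pool.Agent.H77.AS.S3
import Pool.Agent.H77.AS.S5

/-!
Row S6 (project MP_e5a1a5_AS, PI helper77), about 80 lines (uses the STATEMENTS of S1, S3, S4, S5): the number of bad elements, `p = 2`, from the representatives.

PROOF. `e` from `syl_conj h S`; `ψ := e.permCongrHom : Perm α ≃* Perm (Fin n)`; `Q := S.map ψ`, all its elements are `Pres`, `Nat.card Q = Nat.card S = 2 ^ v`. `reps_card Q x (fun g => iv n (fn g))` with `x` from `of_chk hR`: `hi` is `iv_mul`, `hreg` is `reg_of_c2`. So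
`R.length * (2 ^ v) ^ 2 ≤ {g | ∀ a ∈ Q, g a g⁻¹ ∈ Q → a = 1}.ncard = {x : Perm α | ∀ a ∈ S, x a x⁻¹ ∈ S → a = 1}.ncard` (`ψ`), the complement of the bad set, and `Nat.card (Perm α) = n!` (`Set.ncard_add_ncard_compl`).
-/

set_option autoImplicit false
open scoped Classical

namespace Pool.H77.AS

open Equiv Pool.H77.AN

theorem bad2_reps {n : ℕ} {R : List ℕ} (hR : chk n R = true) {α : Type} [Fintype α] [DecidableEq α]
    (h : Fintype.card α = n) (S : Sylow 2 (Perm α)) :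
    {x : Perm α | ∃ a ∈ (S : Subgroup (Perm α)), x * a * x⁻¹ ∈ (S : Subgroup (Perm α)) ∧ a ≠ 1}.ncard +
      R.length * 4 ^ n.factorial.factorization 2 ≤ n.factorial := by
  obtain ⟨hcS, e, he, -⟩ := syl_conj h S
  obtain ⟨x, hx1, hx2⟩ := of_chk hR
  obtain ⟨ψ, hψ⟩ : ∃ ψ : Perm α ≃* Perm (Fin n), ∀ z, ψ z = e.permCongr z :=
    ⟨e.permCongrHom, fun _ => rfl⟩
  obtain ⟨Q, hQ⟩ : ∃ Q : Subgroup (Perm (Fin n)),
    Q = (S : Subgroup (Perm α)).map ψ.toMonoidHom := ⟨_, rfl⟩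
  have hmemQ : ∀ q, q ∈ Q ↔ ∃ z ∈ (S : Subgroup (Perm α)), ψ z = q := by
    intro q
    rw [hQ]
    exact Subgroup.mem_map
  have hmem : ∀ z : Perm α, ψ z ∈ Q ↔ z ∈ (S : Subgroup (Perm α)) := by
    intro z
    rw [hmemQ]
    constructor
    · rintro ⟨y, hy, hyz⟩
      rw [← ψ.injective hyz]
      exact hy
    · intro hz
      exact ⟨z, hz, rfl⟩
  have hPres : ∀ q ∈ Q, Pres q := by
    intro q hq
    obtain ⟨z, hz, rfl⟩ := (hmemQ q).1 hq
    rw [hψ]
    exact he z hz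
  have hcQ : Nat.card Q = 2 ^ n.factorial.factorization 2 := by
    rw [← hcS, hQ]
    exact (Nat.card_congr
      ((S : Subgroup (Perm α)).equivMapOfInjective ψ.toMonoidHom ψ.injective).toEquiv).symm
  have h1 := reps_card Q x (fun g => iv n (fn g))
    (fun g q hq r hr => iv_mul g (hPres q hq) (hPres r hr)) hx2
    (fun k a ha hxa => reg_of_c2 (hPres a ha) (hPres _ hxa) (hx1 k))
  obtain ⟨bad, hbad⟩ : ∃ bad : Set (Perm α), bad = {x : Perm α |
    ∃ a ∈ (S : Subgroup (Perm α)), x * a * x⁻¹ ∈ (S : Subgroup (Perm α)) ∧ a ≠ 1} := ⟨_, rfl⟩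
  rw [← hbad]
  have h3 : ψ '' badᶜ = {g : Perm (Fin n) | ∀ a ∈ Q, g * a * g⁻¹ ∈ Q → a = 1} := by
    ext g
    constructor
    · rintro ⟨y, hy, rfl⟩ a ha h4
      obtain ⟨z, hz, rfl⟩ := (hmemQ a).1 ha
      by_contra h5
      apply hy
      rw [hbad]
      refine ⟨z, hz, ?_, ?_⟩
      · rw [← hmem, map_mul, map_mul, map_inv]
        exact h4
      · rintro rfl
        exact h5 (map_one ψ)
    · intro hg
      refine ⟨ψ.symm g, ?_, ψ.apply_symm_apply g⟩
      intro hb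
      rw [hbad] at hb
      obtain ⟨a, ha, h4, h5⟩ := hb
      apply h5
      rw [← hmem, map_mul, map_mul, map_inv, ψ.apply_symm_apply] at h4
      exact ψ.injective ((hg (ψ a) ((hmem a).2 ha) h4).trans (map_one ψ).symm)
  have h2 : {g : Perm (Fin n) | ∀ a ∈ Q, g * a * g⁻¹ ∈ Q → a = 1}.ncard = badᶜ.ncard := by
    rw [← h3, Set.ncard_image_of_injective _ ψ.injective]
  have h4 : bad.ncard + badᶜ.ncard = n.factorial := by
    rw [Set.ncard_add_ncard_compl, Nat.card_perm, Nat.card_eq_fintype_card, h]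
  have h5 : 4 ^ n.factorial.factorization 2 = (2 ^ n.factorial.factorization 2) ^ 2 := by
    rw [← pow_mul, mul_comm, pow_mul]
    norm_num
  rw [h5, ← hcQ]
  calc bad.ncard + R.length * Nat.card Q ^ 2 ≤ bad.ncard + badᶜ.ncard := by
        rw [← h2]
        exact Nat.add_le_add_left h1 _
    _ = n.factorial := h4

end Pool.H77.AS
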