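import Pool.Agent.H77.AS.T1

/-!
Row S7 (project MP_e5a1a5_AS, PI helper77), about 60 lines (uses the STATEMENT of T1, which is proved): degree 6, the prime 3.

PROOF. `Nat.card S = 9` (`720 = 9 * 80`), so `S` is abelian (`IsPGroup.commGroupOfCardEqPrimeSq` or `commutative_of_card_eq_prime_sq`). `P := S \ {1}` (all elements of order 3: `z ^ 3 = 1` since a permutation of 6 points has no element of order 9; e.g. `S` is not cyclic of order 9
because `orderOf z ∣ 9`, `orderOf z = 9` needs `9 ≤` ... : a cycle type entry is at most 6 and the lcm of entries from {3} is 3, `Equiv.Perm.lcm_cycleType`; or `(z ^ 3)` fixes everything since cycles of `z` have length 1 or 3).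
Let `x` be bad, `a ∈ P`, `h := x a x⁻¹ ∈ S`. Both `S` and `x S x⁻¹` are abelian and contain `h`, so they lie in the centralizer of `h`, of card 18 (`card_centr` in `Pool/Agent/H77/AN/B1.lean`: `k = 1`: `3! * 3`, `k = 2`: `9 * 2`), `|S ∩ x S x⁻¹| ≥ 81 / 18 > 3`, so it is 9
(`Subgroup.card_mul_card..`/ index two in the centralizer: both are normal in it, hence equal as Sylow subgroups) and `x S x⁻¹ = S`. So `8 ≤ (P.filter fun a => x a x⁻¹ ∈ P).card` for a bad `x`, `8 * #bad ≤ ∑ x, (P.filter ..).card ≤ SpS 3 6 = 576` (`sum_le_SpS`, `decide`).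
-/

set_option autoImplicit false
open scoped Classical

namespace Pool.H77.AS

open Equiv Pool.H77.AN

private theorem S7_pow {α : Type} [Fintype α] [DecidableEq α] (h : Fintype.card α = 6) {z : Perm α}
    (h9 : orderOf z ∣ 9) : z ^ 3 = 1 := by
  rw [← orderOf_dvd_iff_pow_eq_one, ← Perm.lcm_cycleType, Multiset.lcm_dvd]
  intro b hb
  have h1 : b ∣ 9 := (Perm.dvd_of_mem_cycleType hb).trans h9
  have h2 : b ≤ 6 := by
    rw [← h]
    exact (Perm.le_card_support_of_mem_cycleType hb).trans (Finset.card_le_univ _)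
  have h3 : b = 1 ∨ b = 3 ∨ b = 9 := by
    have h4 : b ∣ 3 ^ 2 := h1
    obtain ⟨i, hi, rfl⟩ := (Nat.dvd_prime_pow Nat.prime_three).1 h4
    interval_cases i
    · left
      rfl
    · right
      left
      rfl
    · right
      right
      rfl
  rcases h3 with rfl | rfl | rfl
  · exact one_dvd _
  · exact dvd_rfl
  · omega

private theorem S7_card {α : Type} [Fintype α] [DecidableEq α] (h : Fintype.card α = 6) (S : Sylow 3 (Perm α)) :
    Nat.card (S : Subgroup (Perm α)) = 3 ^ 2 := by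
  have h1 := S.card_eq_multiplicity
  have h2 : Nat.card (Perm α) = 720 := by
    rw [Nat.card_eq_fintype_card, Fintype.card_perm, h]
    rfl
  have h3 : (720 : ℕ).factorization 3 = 2 := by
    rw [show (720 : ℕ) = 3 ^ 2 * 80 by norm_num, Nat.factorization_mul (by norm_num) (by norm_num),
      Finsupp.add_apply, Nat.prime_three.factorization_pow, Finsupp.single_eq_same,
      Nat.factorization_eq_zero_of_not_dvd (by norm_num)]
  rw [h2, h3] at h1
  exact h1

private theorem S7_conj {α : Type} [Fintype α] [DecidableEq α] (h : Fintype.card α = 6) (S : Sylow 3 (Perm α))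
    {x a : Perm α} (ha : a ∈ (S : Subgroup (Perm α))) (hx : x * a * x⁻¹ ∈ (S : Subgroup (Perm α)))
    (ha1 : a ≠ 1) {c : Perm α} (hc : c ∈ (S : Subgroup (Perm α))) :
    x * c * x⁻¹ ∈ (S : Subgroup (Perm α)) := by
  have hS := S7_card h S
  have h3 : ∀ z ∈ (S : Subgroup (Perm α)), z ^ 3 = 1 := by
    intro z hz
    refine S7_pow h ?_
    have h4 : orderOf (⟨z, hz⟩ : (S : Subgroup (Perm α))) ∣ Nat.card (S : Subgroup (Perm α)) :=
      orderOf_dvd_natCard _
    rw [hS, ← Subgroup.orderOf_coe] at h4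
    exact h4
  have hcomm : ∀ y ∈ (S : Subgroup (Perm α)), ∀ z ∈ (S : Subgroup (Perm α)), y * z = z * y := by
    intro y hy z hz
    have h5 := IsPGroup.commutative_of_card_eq_prime_sq (p := 3) hS ⟨y, hy⟩ ⟨z, hz⟩
    exact congrArg Subtype.val h5
  obtain ⟨k, hk⟩ := dvd_supp Nat.prime_three (h3 _ hx)
  have hx1 : x * a * x⁻¹ ≠ 1 := by
    intro h6
    apply ha1
    have h7 := congrArg (fun z => x⁻¹ * z * x) h6
    simpa [mul_assoc] using h7
  have hk0 : k ≠ 0 := by
    rintro rfl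
    rw [mul_zero, Finset.card_eq_zero, Perm.support_eq_empty_iff] at hk
    exact hx1 hk
  have hk2 : 3 * k ≤ 6 := by
    rw [← hk, ← h]
    exact Finset.card_le_univ _
  have hC := card_centr Nat.prime_three (h3 _ hx) hk
  have hC2 : Nat.card (Subgroup.centralizer {x * a * x⁻¹}) = 18 := by
    rw [hC, h]
    have hk3 : k = 1 ∨ k = 2 := by omega
    rcases hk3 with rfl | rfl
    · rfl
    · rfl
  have hle : (S : Subgroup (Perm α)) ≤ Subgroup.centralizer {x * a * x⁻¹} := by
    intro z hz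
    rw [Subgroup.mem_centralizer_singleton_iff]
    exact hcomm _ hz _ hx
  have hidx : ((S : Subgroup (Perm α)).subgroupOf (Subgroup.centralizer {x * a * x⁻¹})).index = 2 := by
    have h8 := Subgroup.card_mul_index ((S : Subgroup (Perm α)).subgroupOf (Subgroup.centralizer {x * a * x⁻¹}))
    rw [hC2, Nat.card_congr (Subgroup.subgroupOfEquivOfLe hle).toEquiv, hS] at h8
    omega
  have hyC : x * c * x⁻¹ ∈ Subgroup.centralizer {x * a * x⁻¹} := by
    rw [Subgroup.mem_centralizer_singleton_iff]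
    have h9 : x * c * x⁻¹ * (x * a * x⁻¹) = x * (c * a) * x⁻¹ := by group
    have h10 : x * a * x⁻¹ * (x * c * x⁻¹) = x * (a * c) * x⁻¹ := by group
    rw [h9, h10, hcomm _ hc _ ha]
  have h11 := Subgroup.mul_self_mem_of_index_two hidx ⟨x * c * x⁻¹, hyC⟩
  rw [Subgroup.mem_subgroupOf] at h11
  have h12 : x * c * x⁻¹ * (x * c * x⁻¹) ∈ (S : Subgroup (Perm α)) := h11
  have h13 : x * c * x⁻¹ = x * c * x⁻¹ * (x * c * x⁻¹) * (x * c * x⁻¹ * (x * c * x⁻¹)) := by
    have h14 : x * c * x⁻¹ * (x * c * x⁻¹) * (x * c * x⁻¹ * (x * c * x⁻¹)) = x * (c ^ 3 * c) * x⁻¹ := by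
      rw [pow_succ, pow_two]
      group
    rw [h14, h3 _ hc, one_mul]
  rw [h13]
  exact mul_mem h12 h12

theorem bad3_6 {α : Type} [Fintype α] [DecidableEq α] (h : Fintype.card α = 6) (S : Sylow 3 (Perm α)) :
    {x : Perm α | ∃ a ∈ (S : Subgroup (Perm α)), x * a * x⁻¹ ∈ (S : Subgroup (Perm α)) ∧ a ≠ 1}.ncard ≤ 72 := by
  have hS := S7_card h S
  have h3 : ∀ z ∈ (S : Subgroup (Perm α)), z ^ 3 = 1 := by
    intro z hz
    refine S7_pow h ?_
    have h4 : orderOf (⟨z, hz⟩ : (S : Subgroup (Perm α))) ∣ Nat.card (S : Subgroup (Perm α)) :=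
      orderOf_dvd_natCard _
    rw [hS, ← Subgroup.orderOf_coe] at h4
    exact h4
  obtain ⟨P, hP⟩ : ∃ P : Finset (Perm α), ∀ z, z ∈ P ↔ z ∈ (S : Subgroup (Perm α)) ∧ z ≠ 1 :=
    ⟨Finset.univ.filter fun z => z ∈ (S : Subgroup (Perm α)) ∧ z ≠ 1, fun z => by
      rw [Finset.mem_filter, and_iff_right (Finset.mem_univ _)]⟩
  have hPc : P.card = 8 := by
    have h5 : (insert 1 P : Finset (Perm α)).card = 9 := by
      have h6 : ((insert 1 P : Finset (Perm α)) : Set (Perm α)) = (S : Subgroup (Perm α)) := by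
        ext z
        rw [Finset.mem_coe, Finset.mem_insert, hP, SetLike.mem_coe]
        constructor
        · rintro (rfl | h7)
          · exact one_mem _
          · exact h7.1
        · intro h7
          by_cases h8 : z = 1
          · exact Or.inl h8
          · exact Or.inr ⟨h7, h8⟩
      rw [← Set.ncard_coe_finset, h6, ← Nat.card_coe_set_eq]
      exact hS
    rw [Finset.card_insert_of_notMem (fun h6 => ((hP 1).1 h6).2 rfl)] at h5
    omega
  have h4 := sum_le_SpS Nat.prime_three (S : Subgroup (Perm α)) S.2 P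
    (fun a ha => ⟨((hP a).1 ha).1, h3 a ((hP a).1 ha).1, ((hP a).1 ha).2⟩)
  have h5 : SpS 3 (Fintype.card α) = 576 := by
    rw [h]
    decide
  rw [h5] at h4
  obtain ⟨B, hB⟩ : ∃ B : Finset (Perm α), ∀ x, x ∈ B ↔
      ∃ a ∈ (S : Subgroup (Perm α)), x * a * x⁻¹ ∈ (S : Subgroup (Perm α)) ∧ a ≠ 1 :=
    ⟨Finset.univ.filter fun x => ∃ a ∈ (S : Subgroup (Perm α)), x * a * x⁻¹ ∈ (S : Subgroup (Perm α)) ∧ a ≠ 1,
      fun z => by rw [Finset.mem_filter, and_iff_right (Finset.mem_univ _)]⟩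
  have h6 : {x : Perm α | ∃ a ∈ (S : Subgroup (Perm α)), x * a * x⁻¹ ∈ (S : Subgroup (Perm α)) ∧ a ≠ 1} =
      (B : Set (Perm α)) := by
    ext x
    rw [Finset.mem_coe, hB]
    rfl
  rw [h6, Set.ncard_coe_finset]
  have h7 : ∑ x ∈ B, 8 ≤ ∑ x ∈ B, (P.filter fun a => x * a * x⁻¹ ∈ P).card := by
    refine Finset.sum_le_sum fun x hx => ?_
    obtain ⟨a, ha, hxa, ha1⟩ := (hB x).1 hx
    rw [Finset.filter_true_of_mem, hPc]
    intro c hc
    have hc' := (hP c).1 hc
    refine (hP _).2 ⟨S7_conj h S ha hxa ha1 hc'.1, fun h8 => hc'.2 ?_⟩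
    have h9 := congrArg (fun z => x⁻¹ * z * x) h8
    simpa [mul_assoc] using h9
  have h8 : ∑ x ∈ B, (P.filter fun a => x * a * x⁻¹ ∈ P).card ≤
      ∑ x : Perm α, (P.filter fun a => x * a * x⁻¹ ∈ P).card :=
    Finset.sum_le_sum_of_subset (Finset.subset_univ _)
  rw [Finset.sum_const, smul_eq_mul] at h7
  omega

end Pool.H77.AS
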