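import Pool.Agent.H77.AS.T1

/-!
Row S8 (project MP_e5a1a5_AS, PI helper77), about 120 lines (uses the STATEMENTS of T1, which is proved): the improved bound for `p = 2`.

PROOF. `P := {a ∈ H | a ^ 2 = 1, a ≠ 1}`; `E ⊆ P` (a product of two disjoint transpositions of `H`). For every `x`: `(if x bad then 1 else 0) + (E.filter fun a => x a x⁻¹ ∈ E).card ≤ (P.filter fun a => x a x⁻¹ ∈ P).card`: the inclusion `⊆` is clear; for a bad `x` it is
strict: if the left filter is empty use `bad_ge_B4` (Pool/Agent/H77/AN/B4.lean, `p = 2`); otherwise take `a = σ τ ∈ E` with `x a x⁻¹ = σ' τ' ∈ E`; `x σ x⁻¹` is a swap and `x a x⁻¹ = (x σ x⁻¹) (x τ x⁻¹)`, disjoint swaps, so (as `σ' τ'` are disjoint swaps) `x σ x⁻¹ ∈ {σ', τ'} ⊆ H`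
(a point `u` moved by `x σ x⁻¹ = swap u v`: `x a x⁻¹` maps `u` to `v`, so `swap u v` is `σ'` or `τ'`); then `σ ∈ P`, `x σ x⁻¹ ∈ P` but `σ ∉ E` (support of card 2, elements of `E` have support of card 4).
Sum over `x`: `#bad + ∑ x, (E.filter ..).card ≤ SpS 2 n` (`sum_le_SpS`), and `∑ x, (E.filter ..).card = ∑ a ∈ E, ∑ h ∈ E, #{x | x a x⁻¹ = h}` (`sum_conj`), where `#{x | x a x⁻¹ = h} = #centralizer a = (n - 4)! * 2 ^ 2 * 2!` because `a` and `h` have the same cycle type
`{2, 2}` (`Equiv.Perm.isConj_iff_cycleType_eq`; the set is a coset of the centralizer; `card_centr` in `Pool/Agent/H77/AN/B1.lean` with `p = 2`, `k = 2`).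
-/

set_option autoImplicit false
open scoped Classical

namespace Pool.H77.AS

open Equiv Pool.H77.AN

/-- a swap moving `u` to `v` is `swap u v` -/
private theorem swap_of_S8 {α : Type} [DecidableEq α] {σ : Perm α} (hσ : σ.IsSwap) {u v : α}
    (huv : u ≠ v) (h : σ u = v) : σ = swap u v := by
  obtain ⟨c, d, hcd, rfl⟩ := hσ
  by_cases h1 : u = c
  · subst h1
    rw [swap_apply_left] at h
    rw [h]
  · by_cases h2 : u = d
    · subst h2
      rw [swap_apply_right] at h
      rw [h, swap_comm]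
    · rw [swap_apply_of_ne_of_ne h1 h2] at h
      exact absurd h huv

private theorem swap_sq_S8 {α : Type} [DecidableEq α] {σ : Perm α} (hσ : σ.IsSwap) : σ ^ 2 = 1 := by
  obtain ⟨c, d, _, rfl⟩ := hσ
  rw [pow_two, swap_mul_self]

private theorem swap_conj_S8 {α : Type} [DecidableEq α] {σ : Perm α} (hσ : σ.IsSwap) (x : Perm α) :
    ∃ u v, u ≠ v ∧ x * σ * x⁻¹ = swap u v := by
  obtain ⟨c, d, hcd, rfl⟩ := hσ
  exact ⟨x c, x d, fun h => hcd (x.injective h), (Equiv.swap_apply_apply x c d).symm⟩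

/-- a product of two disjoint swaps determines the swaps -/
private theorem two_swaps_S8 {α : Type} [Fintype α] [DecidableEq α] {σ τ σ' ρ : Perm α} {u v : α}
    (hσ : σ.IsSwap) (hτ : τ.IsSwap) (hd : Perm.Disjoint σ τ) (huv : u ≠ v)
    (hσ' : σ' = swap u v) (hd' : Perm.Disjoint σ' ρ) (h : σ * τ = σ' * ρ) : σ' = σ ∨ σ' = τ := by
  have h1 : σ' u = v := by
    rw [hσ', swap_apply_left]
  have h2 : ρ u = u := by
    rcases hd' u with h3 | h3
    · rw [h1] at h3
      exact absurd h3.symm huv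
    · exact h3
  have h4 : (σ * τ) u = v := by
    rw [h, Perm.mul_apply, h2, h1]
  rcases hd u with h5 | h5
  · right
    rw [hd.commute.eq, Perm.mul_apply, h5] at h4
    rw [hσ']
    exact (swap_of_S8 hτ huv h4).symm
  · left
    rw [Perm.mul_apply, h5] at h4
    rw [hσ']
    exact (swap_of_S8 hσ huv h4).symm

private theorem supp_E_S8 {α : Type} [Fintype α] [DecidableEq α] {σ τ : Perm α}
    (hσ : σ.IsSwap) (hτ : τ.IsSwap) (hd : Perm.Disjoint σ τ) :
    (σ * τ).support.card = 4 ∧ (σ * τ) ^ 2 = 1 ∧ (σ * τ).cycleType = {2, 2} := by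
  have h1 := Perm.card_support_eq_two.2 hσ
  have h2 := Perm.card_support_eq_two.2 hτ
  refine ⟨?_, ?_, ?_⟩
  · rw [hd.card_support_mul, h1, h2]
  · rw [hd.commute.mul_pow, swap_sq_S8 hσ, swap_sq_S8 hτ, one_mul]
  · rw [hd.cycleType_mul, hσ.isCycle.cycleType, hτ.isCycle.cycleType, h1, h2]
    rfl

private theorem conj_ge_S8 {α : Type} [Fintype α] [DecidableEq α] {a h : Perm α}
    (ha : a.support.card = 4) (ha2 : a ^ 2 = 1) (hc : a.cycleType = h.cycleType) :
    (Fintype.card α - 4).factorial * 8 ≤ (Finset.univ.filter fun x : Perm α => x * a * x⁻¹ = h).card := by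
  obtain ⟨x₀, hx₀⟩ := isConj_iff.1 (Perm.isConj_iff_cycleType_eq.2 hc)
  have h1 := card_centr (k := 2) Nat.prime_two ha2 (by rw [ha])
  have e8 : (Fintype.card α - 2 * 2).factorial * 2 ^ 2 * Nat.factorial 2 =
      (Fintype.card α - 4).factorial * 8 := by
    have e1 : Fintype.card α - 2 * 2 = Fintype.card α - 4 := by omega
    rw [e1, mul_assoc]
    norm_num [Nat.factorial]
  rw [e8] at h1
  rw [← h1]
  have h2 : Nat.card (Subgroup.centralizer {a}) = (Subgroup.centralizer {a} : Set (Perm α)).ncard :=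
    Nat.card_coe_set_eq _
  rw [h2, ← Set.ncard_image_of_injective (Subgroup.centralizer {a} : Set (Perm α)) (mul_right_injective x₀),
    ← Set.ncard_coe_finset]
  refine Set.ncard_le_ncard ?_ (Set.toFinite _)
  rintro _ ⟨c, hc1, rfl⟩
  rw [SetLike.mem_coe, Subgroup.mem_centralizer_singleton_iff] at hc1
  rw [Finset.mem_coe, Finset.mem_filter]
  refine ⟨Finset.mem_univ _, ?_⟩
  change x₀ * c * a * (x₀ * c)⁻¹ = h
  rw [← hx₀, mul_assoc x₀ c a, hc1]
  group

theorem bad2_E {α : Type} [Fintype α] [DecidableEq α] (H : Subgroup (Perm α)) (hH : IsPGroup 2 H)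
    (E : Finset (Perm α)) (hE : ∀ z ∈ E, ∃ σ ∈ H, ∃ τ ∈ H, σ.IsSwap ∧ τ.IsSwap ∧ Perm.Disjoint σ τ ∧ z = σ * τ) :
    {x : Perm α | ∃ a ∈ H, x * a * x⁻¹ ∈ H ∧ a ≠ 1}.ncard +
      E.card ^ 2 * ((Fintype.card α - 4).factorial * 8) ≤ SpS 2 (Fintype.card α) := by
  obtain ⟨P, hP⟩ : ∃ P : Finset (Perm α), P = Finset.univ.filter fun a : Perm α => a ∈ H ∧ a ^ 2 = 1 ∧ a ≠ 1 :=
    ⟨_, rfl⟩
  obtain ⟨B, hB⟩ : ∃ B : Finset (Perm α), B = Finset.univ.filter fun x : Perm α =>
      ∃ a ∈ H, x * a * x⁻¹ ∈ H ∧ a ≠ 1 := ⟨_, rfl⟩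
  have eB : {x : Perm α | ∃ a ∈ H, x * a * x⁻¹ ∈ H ∧ a ≠ 1} = (B : Set (Perm α)) := by
    ext x
    rw [hB]
    simp
  rw [eB, Set.ncard_coe_finset]
  have hmP : ∀ a, a ∈ P ↔ a ∈ H ∧ a ^ 2 = 1 ∧ a ≠ 1 := by
    intro a
    rw [hP, Finset.mem_filter]
    exact ⟨fun h => h.2, fun h => ⟨Finset.mem_univ _, h⟩⟩
  have hEs : ∀ z ∈ E, z.support.card = 4 ∧ z ^ 2 = 1 ∧ z.cycleType = {2, 2} := by
    intro z hz
    obtain ⟨σ, _, τ, _, h1, h2, h3, rfl⟩ := hE z hz
    exact supp_E_S8 h1 h2 h3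
  have hEP : ∀ z ∈ E, z ∈ P := by
    intro z hz
    have h1 := hEs z hz
    obtain ⟨σ, hσ, τ, hτ, _, _, _, h2⟩ := hE z hz
    rw [hmP]
    refine ⟨?_, h1.2.1, ?_⟩
    · rw [h2]
      exact H.mul_mem hσ hτ
    · intro h3
      rw [h3, Perm.support_one] at h1
      simp at h1
  have hsub : ∀ x : Perm α, (E.filter fun a => x * a * x⁻¹ ∈ E) ⊆ (P.filter fun a => x * a * x⁻¹ ∈ P) := by
    intro x a ha
    rw [Finset.mem_filter] at ha ⊢
    exact ⟨hEP _ ha.1, hEP _ ha.2⟩
  have hx : ∀ x : Perm α, (if x ∈ B then 1 else 0) + (E.filter fun a => x * a * x⁻¹ ∈ E).card ≤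
      (P.filter fun a => x * a * x⁻¹ ∈ P).card := by
    intro x
    by_cases hxB : x ∈ B
    · rw [if_pos hxB]
      rcases Finset.eq_empty_or_nonempty (E.filter fun a => x * a * x⁻¹ ∈ E) with h0 | ⟨a, ha⟩
      · rw [h0, Finset.card_empty]
        rw [hB, Finset.mem_filter] at hxB
        have := bad_ge_B4 Nat.prime_two H hH hxB.2
        rw [hP]
        exact this
      · rw [add_comm]
        refine Nat.succ_le_of_lt (Finset.card_lt_card ?_)
        rw [Finset.ssubset_iff_of_subset (hsub x)]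
        rw [Finset.mem_filter] at ha
        obtain ⟨σ, hσ, τ, hτ, h1, h2, h3, rfl⟩ := hE a ha.1
        obtain ⟨σ', hσ', τ', hτ', h1', h2', h3', h4'⟩ := hE _ ha.2
        obtain ⟨u, v, huv, hs⟩ := swap_conj_S8 h1 x
        have h5 : x * (σ * τ) * x⁻¹ = (x * σ * x⁻¹) * (x * τ * x⁻¹) := by group
        have h6 := two_swaps_S8 h1' h2' h3' huv hs (h3.conj x) (by rw [← h4', h5])
        have h7 : x * σ * x⁻¹ ∈ H := by
          rcases h6 with h6 | h6
          · rw [h6]
            exact hσ'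
          · rw [h6]
            exact hτ'
        have hσ1 : σ ≠ 1 := by
          intro h8
          have h9 := Perm.card_support_eq_two.2 h1
          rw [h8, Perm.support_one] at h9
          simp at h9
        refine ⟨σ, ?_, ?_⟩
        · rw [Finset.mem_filter, hmP, hmP]
          refine ⟨⟨hσ, swap_sq_S8 h1, hσ1⟩, h7, ?_, ?_⟩
          · rw [conj_pow, swap_sq_S8 h1]
            simp
          · intro h8
            apply hσ1
            have h9 : σ = x⁻¹ * (x * σ * x⁻¹) * x := by group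
            rw [h9, h8]
            group
        · intro h8
          rw [Finset.mem_filter] at h8
          have h9 := (hEs _ h8.1).1
          have h10 := Perm.card_support_eq_two.2 h1
          omega
    · rw [if_neg hxB, zero_add]
      exact Finset.card_le_card (hsub x)
  have hsum := Finset.sum_le_sum fun x (_ : x ∈ (Finset.univ : Finset (Perm α))) => hx x
  rw [Finset.sum_add_distrib] at hsum
  have hB1 : ∑ x : Perm α, (if x ∈ B then 1 else 0) = B.card := by
    rw [Finset.sum_boole, Nat.cast_id]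
    congr 1
    ext x
    simp
  rw [hB1] at hsum
  have hPS := sum_le_SpS Nat.prime_two H hH P (fun a ha => (hmP a).1 ha)
  refine le_trans ?_ (hsum.trans hPS)
  refine Nat.add_le_add_left ?_ _
  rw [sum_conj]
  have h1 : ∀ a ∈ E, E.card * ((Fintype.card α - 4).factorial * 8) ≤
      ∑ h ∈ E, (Finset.univ.filter fun x : Perm α => x * a * x⁻¹ = h).card := by
    intro a ha
    rw [← smul_eq_mul, ← Finset.sum_const]
    refine Finset.sum_le_sum fun h hh => ?_
    refine conj_ge_S8 (hEs a ha).1 (hEs a ha).2.1 ?_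
    rw [(hEs a ha).2.2, (hEs h hh).2.2]
  have h2 := Finset.sum_le_sum h1
  rw [Finset.sum_const, smul_eq_mul] at h2
  refine le_trans (le_of_eq ?_) h2
  rw [pow_two, mul_assoc]

end Pool.H77.AS
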