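import Pool.Agent.H77.AS.S3

/-!
Row S9 (project MP_e5a1a5_AS, PI helper77), about 50 lines (uses the STATEMENT of S3): products of two transpositions in a Sylow 2-subgroup.

PROOF. `syl_conj rfl S` gives `e` and the swaps `s i = swap (e⁻¹ (2 i)) (e⁻¹ (2 i + 1)) ∈ S`, `i < n / 2`, pairwise disjoint. `E` = image of `{(i, j) | i < j < n / 2}` (or of `Finset.powersetCard 2 (range (n / 2))`, card `choose (n / 2) 2`) under `(i, j) ↦ s i * s j`, injective
(the support is `{e⁻¹ (2 i), e⁻¹ (2 i + 1), e⁻¹ (2 j), e⁻¹ (2 j + 1)}`).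
-/

set_option autoImplicit false
open scoped Classical

namespace Pool.H77.AS

open Equiv Pool.H77.AN

private theorem S9_val {α : Type} [DecidableEq α] {m : ℕ} (a b : Fin m → α)
    (ha : Function.Injective a) (hb : Function.Injective b) (hab : ∀ i j, a i ≠ b j) {i j : Fin m}
    (hij : i ≠ j) (k : Fin m) :
    (swap (a i) (b i) * swap (a j) (b j)) (a k) = b k ↔ k = i ∨ k = j := by
  rw [Perm.mul_apply]
  by_cases hkj : k = j
  · subst hkj
    rw [swap_apply_left, swap_apply_of_ne_of_ne (hab i k).symm (fun h => hij (hb h).symm)]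
    exact ⟨fun _ => Or.inr rfl, fun _ => rfl⟩
  · rw [swap_apply_of_ne_of_ne (fun h => hkj (ha h)) (hab k j)]
    by_cases hki : k = i
    · subst hki
      rw [swap_apply_left]
      exact ⟨fun _ => Or.inl rfl, fun _ => rfl⟩
    · rw [swap_apply_of_ne_of_ne (fun h => hki (ha h)) (hab k i)]
      constructor
      · intro h
        exact absurd h (hab k k)
      · rintro (h | h)
        · exact absurd h hki
        · exact absurd h hkj

private theorem S9_abs {α : Type} [Fintype α] [DecidableEq α] {m : ℕ} (a b : Fin m → α)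
    (ha : Function.Injective a) (hb : Function.Injective b) (hab : ∀ i j, a i ≠ b j) :
    ∃ E : Finset (Perm α), E.card = m.choose 2 ∧ ∀ z ∈ E, ∃ i j : Fin m, i ≠ j ∧
      z = swap (a i) (b i) * swap (a j) (b j) := by
  have h1 : ∀ T : Finset (Fin m), T ∈ (Finset.univ : Finset (Fin m)).powersetCard 2 →
      ∃ z : Perm α, ∃ i j : Fin m, i ≠ j ∧ T = {i, j} ∧
        z = swap (a i) (b i) * swap (a j) (b j) := by
    intro T hT
    rw [Finset.mem_powersetCard] at hT
    obtain ⟨i, j, hij, hTij⟩ := Finset.card_eq_two.1 hT.2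
    exact ⟨_, i, j, hij, hTij, rfl⟩
  choose! F hF using h1
  refine ⟨((Finset.univ : Finset (Fin m)).powersetCard 2).image F, ?_, ?_⟩
  · rw [Finset.card_image_of_injOn, Finset.card_powersetCard, Finset.card_univ, Fintype.card_fin]
    have key : ∀ T ∈ (Finset.univ : Finset (Fin m)).powersetCard 2, ∀ k, k ∈ T ↔ F T (a k) = b k := by
      intro T hT k
      obtain ⟨i, j, hij, hTij, hz⟩ := hF T hT
      rw [hz, S9_val a b ha hb hab hij, hTij, Finset.mem_insert, Finset.mem_singleton]
    intro T hT T' hT' h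
    ext k
    rw [key T hT, key T' hT', h]
  · intro z hz
    rw [Finset.mem_image] at hz
    obtain ⟨T, hT, rfl⟩ := hz
    obtain ⟨i, j, hij, _, h⟩ := hF T hT
    exact ⟨i, j, hij, h⟩

theorem exists_E {α : Type} [Fintype α] [DecidableEq α] (S : Sylow 2 (Perm α)) : ∃ E : Finset (Perm α),
    E.card = (Fintype.card α / 2).choose 2 ∧ ∀ z ∈ E, ∃ σ ∈ (S : Subgroup (Perm α)), ∃ τ ∈ (S : Subgroup (Perm α)),
      σ.IsSwap ∧ τ.IsSwap ∧ Perm.Disjoint σ τ ∧ z = σ * τ := by
  obtain ⟨-, e, -, hsw⟩ := syl_conj rfl S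
  have hlt : ∀ i : Fin (Fintype.card α / 2), 2 * (i : ℕ) + 1 < Fintype.card α := by
    intro i
    have := i.2
    omega
  obtain ⟨E, hE, hz⟩ := S9_abs (m := Fintype.card α / 2)
    (fun i => e.symm ⟨2 * (i : ℕ), by have := hlt i; omega⟩)
    (fun i => e.symm ⟨2 * (i : ℕ) + 1, hlt i⟩)
    (fun i j h => by
      have h1 := congrArg Fin.val (e.symm.injective h)
      simp only at h1
      exact Fin.ext (by omega))
    (fun i j h => by
      have h1 := congrArg Fin.val (e.symm.injective h)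
      simp only at h1
      exact Fin.ext (by omega))
    (fun i j h => by
      have h1 := congrArg Fin.val (e.symm.injective h)
      simp only at h1
      omega)
  refine ⟨E, hE, fun z hzE => ?_⟩
  obtain ⟨i, j, hij, hzz⟩ := hz z hzE
  have hne : ∀ (x y : ℕ) (hx : x < Fintype.card α) (hy : y < Fintype.card α), x ≠ y →
      e.symm ⟨x, hx⟩ ≠ e.symm ⟨y, hy⟩ := by
    intro x y hx hy hxy h
    exact hxy (congrArg Fin.val (e.symm.injective h))
  have hij' : (i : ℕ) ≠ (j : ℕ) := fun h => hij (Fin.ext h)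
  refine ⟨_, hsw (i : ℕ) (hlt i), _, hsw (j : ℕ) (hlt j), ⟨_, _, hne _ _ _ _ (by omega), rfl⟩,
    ⟨_, _, hne _ _ _ _ (by omega), rfl⟩, ?_, hzz⟩
  intro x
  by_cases hx1 : x = e.symm ⟨2 * (i : ℕ), by have := hlt i; omega⟩
  · right
    rw [hx1]
    exact swap_apply_of_ne_of_ne (hne _ _ _ _ (by omega)) (hne _ _ _ _ (by omega))
  · by_cases hx2 : x = e.symm ⟨2 * (i : ℕ) + 1, hlt i⟩
    · right
      rw [hx2]
      exact swap_apply_of_ne_of_ne (hne _ _ _ _ (by omega)) (hne _ _ _ _ (by omega))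
    · left
      exact swap_apply_of_ne_of_ne hx1 hx2

end Pool.H77.AS
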