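import Pool.Agent.H77.AN.F
import Pool.Agent.H77.AS.N
import Pool.Agent.H77.AS.R
import Pool.Agent.H77.AS.S6
import Pool.Agent.H77.AS.S7
import Pool.Agent.H77.AS.S8
import Pool.Agent.H77.AS.S9
import Pool.Agent.H77.AS.S10
import Pool.Agent.H77.AS.S11

/-!
Project MP_e5a1a5_AS (helper77): all symmetric groups of degree at least five, except degree eight.
-/

set_option autoImplicit false
open scoped Classical

namespace Pool.H77.AS

open Equiv Pool.H77.AN Pool.H45.SY

variable {α : Type} [Fintype α] [DecidableEq α]

theorem fac_val (n v m : ℕ) (h : n.factorial = 2 ^ v * m) (hm : ¬ 2 ∣ m) : n.factorial.factorization 2 = v := by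
  have hm0 : m ≠ 0 := by
    rintro rfl
    exact hm (dvd_zero 2)
  rw [h, Nat.factorization_mul (pow_ne_zero _ (by norm_num)) hm0, Nat.Prime.factorization_pow Nat.prime_two,
    Finsupp.add_apply, Finsupp.single_eq_same, Nat.factorization_eq_zero_of_not_dvd hm, add_zero]

theorem good_bR {n r v : ℕ} {R : List ℕ} (hR : chk n R = true) (hr : R.length = r)
    (hv : n.factorial.factorization 2 = v) (h : Fintype.card α = n)
    (hs : ∑ p ∈ (Finset.range (n + 1)).filter Nat.Prime, bR n r v p < n.factorial) : GoodS α := by
  subst h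
  refine goodS_of_bounds (bR (Fintype.card α) r v) (fun p hp _ S => ?_) hs
  unfold bR
  by_cases h2 : p = 2
  · subst h2
    rw [if_pos rfl]
    have h3 := bad2_reps hR rfl S
    rw [hr, hv] at h3
    omega
  · rw [if_neg h2]
    by_cases h3 : p = 3 ∧ Fintype.card α = 6
    · rw [if_pos h3]
      obtain ⟨rfl, h6⟩ := h3
      exact bad3_6 h6 S
    · rw [if_neg h3]
      exact badS_le hp S

theorem good_bE (hs : ∑ p ∈ (Finset.range (Fintype.card α + 1)).filter Nat.Prime, bE (Fintype.card α) p <
    (Fintype.card α).factorial) : GoodS α := by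
  refine goodS_of_bounds (bE (Fintype.card α)) (fun p hp _ S => ?_) hs
  unfold bE
  by_cases h2 : p = 2
  · subst h2
    rw [if_pos rfl]
    obtain ⟨E, hE, hE2⟩ := exists_E S
    have h3 := bad2_E (S : Subgroup (Perm α)) S.isPGroup' E hE2
    rw [hE] at h3
    omega
  · rw [if_neg h2]
    exact badS_le hp S

/-- **All symmetric groups of degree at least five, except degree eight.** -/
theorem goodS_every (h5 : 5 ≤ Fintype.card α) (h8 : Fintype.card α ≠ 8) : GoodS α := by
  by_cases a5 : Fintype.card α = 5
  · exact good_bR chk_R5 len_R5 (fac_val 5 3 15 (by decide) (by decide)) a5 N5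
  by_cases a6 : Fintype.card α = 6
  · exact good_bR chk_R6 len_R6 (fac_val 6 4 45 (by decide) (by decide)) a6 N6
  by_cases a9 : Fintype.card α = 9
  · exact good_bR chk_R9 len_R9 (fac_val 9 7 2835 (by decide) (by decide)) a9 N9
  by_cases a10 : Fintype.card α = 10
  · exact good_bR chk_R10 len_R10 (fac_val 10 8 14175 (by decide) (by decide)) a10 N10
  by_cases a12 : Fintype.card α = 12
  · exact good_bR chk_R12 len_R12 (fac_val 12 10 467775 (by decide) (by decide)) a12 N12
  by_cases a14 : Fintype.card α = 14
  · refine good_bE ?_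
    rw [a14]
    exact N14
  by_cases a16 : Fintype.card α = 16
  · refine good_bE ?_
    rw [a16]
    exact N16
  exact goodS_all (by omega)

end Pool.H77.AS
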