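import Pool.Agent.H77.AS.F
import Pool.Agent.H77.AN.E1

/-!
Project MP_e5a1a5_AS (helper77): trivial intersections in the quotient give intersections inside the nilpotent normal subgroup.
-/

set_option autoImplicit false

namespace Pool.H77.AS

open Pool.H45.SY Pool.H77.AN Equiv

universe u v

/-- some element gives trivial intersections for all primes -/
def Triv (K : Type u) [Group K] : Prop :=
  ∀ S : ∀ q : Nat.Primes, Sylow (q : ℕ) K, ∃ z : K, ∀ q, itr (S q : Subgroup K) z = ⊥

theorem triv_of {K : Type u} [Group K] (h : ∀ S : ∀ q : Nat.Primes, Sylow (q : ℕ) K, ∃ z : K,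
    ∀ q, ∀ a ∈ (S q : Subgroup K), z * a * z⁻¹ ∈ (S q : Subgroup K) → a = 1) : Triv K := by
  intro S
  obtain ⟨z, hz⟩ := h S
  refine ⟨z, fun q => ?_⟩
  rw [Subgroup.eq_bot_iff_forall]
  intro a ha
  rw [mem_itr] at ha
  exact hz q a ha.1 ha.2

theorem triv_str {K : Type u} [Group K] (h : Triv K) : Str K := by
  intro S
  obtain ⟨z, hz⟩ := h S
  refine ⟨z, fun q => ?_⟩
  rw [hz q]
  infer_instance

theorem triv_equiv {K : Type u} {L : Type v} [Group K] [Group L] [Finite K] (e : K ≃* L) (h : Triv K) :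
    Triv L := by
  intro S
  have hfin : Finite L := Finite.of_equiv K e.toEquiv
  have hs : Function.Surjective (e.symm : L →* K) := e.symm.surjective
  obtain ⟨z, hz⟩ := h (fun q => have := Fact.mk q.2; (S q).mapSurjective hs)
  refine ⟨e z, fun q => ?_⟩
  have := Fact.mk q.2
  have hmem : ∀ a : L, a ∈ itr (S q : Subgroup L) (e z) ↔
      e.symm a ∈ itr ((S q).mapSurjective hs : Subgroup K) z := by
    have h1 : ∀ b : K, b ∈ ((S q).mapSurjective hs : Subgroup K) ↔ e b ∈ (S q : Subgroup L) := by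
      intro b
      rw [Sylow.coe_mapSurjective, Subgroup.mem_map]
      constructor
      · rintro ⟨c, hc, hcb⟩
        have h2 : e.symm c = b := hcb
        rw [← h2, e.apply_symm_apply]
        exact hc
      · intro hb
        exact ⟨e b, hb, e.symm_apply_apply b⟩
    intro a
    rw [mem_itr, mem_itr, h1, h1, e.apply_symm_apply, map_mul, map_mul, map_inv, e.apply_symm_apply]
  rw [Subgroup.eq_bot_iff_forall]
  intro a ha
  rw [hmem, hz q, Subgroup.mem_bot] at ha
  exact (map_eq_one_iff e.symm e.symm.injective).1 ha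

theorem triv_pi {κ : Type} [Finite κ] {K : κ → Type} [∀ k, Group (K k)] [∀ k, Finite (K k)]
    (h : ∀ k, Triv (K k)) : Triv (∀ k, K k) := by
  intro S
  have hs : ∀ k, Function.Surjective (Pi.evalMonoidHom K k) := fun k => Function.surjective_eval k
  choose z hz using fun k => h k (fun q => have := Fact.mk q.2; (S q).mapSurjective (hs k))
  refine ⟨z, fun q => ?_⟩
  have := Fact.mk q.2
  rw [Subgroup.eq_bot_iff_forall]
  intro a ha
  rw [mem_itr] at ha
  funext k
  have h1 : a k ∈ itr ((S q).mapSurjective (hs k) : Subgroup (K k)) (z k) := by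
    rw [mem_itr, Sylow.coe_mapSurjective]
    exact ⟨⟨a, ha.1, rfl⟩, ⟨z * a * z⁻¹, ha.2, rfl⟩⟩
  rw [hz k q, Subgroup.mem_bot] at h1
  exact h1

/-- As `main_all`, with trivial intersections in the quotient. -/
theorem main_triv (G : Type u) [Group G] [Finite G] (F : Subgroup G) [F.Normal]
    (hF : Group.IsNilpotent F) (hQ : Triv (G ⧸ F)) (H : ∀ p : Nat.Primes, Sylow (p : ℕ) G)
    (y : Nat.Primes → G) :
    ∃ x : G, ∀ p, itr (H p : Subgroup G) x ≤ F ∧
      ∃ h ∈ (H p : Subgroup G), itr (H p : Subgroup G) x ≤ itr (H p : Subgroup G) (y p * h) := by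
  classical
  have hsurj : Function.Surjective (QuotientGroup.mk' F) := QuotientGroup.mk'_surjective F
  let Hb : ∀ p : Nat.Primes, Sylow (p : ℕ) (G ⧸ F) := fun p =>
    have := Fact.mk p.2
    (H p).mapSurjective hsurj
  have hHb : ∀ p : Nat.Primes, (Hb p : Subgroup (G ⧸ F)) =
      (H p : Subgroup G).map (QuotientGroup.mk' F) := by
    intro p
    have := Fact.mk p.2
    exact Sylow.coe_mapSurjective hsurj (H p)
  obtain ⟨k, hk⟩ := hQ Hb
  obtain ⟨x₀, hx₀⟩ := hsurj k
  have hker : ∀ g : G, QuotientGroup.mk' F g = 1 ↔ g ∈ F := by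
    intro g
    rw [QuotientGroup.mk'_apply]
    exact QuotientGroup.eq_one_iff g
  -- an element whose conjugate is in `H p` modulo `F` lies in `F`
  have hin : ∀ p : Nat.Primes, ∀ a ∈ (H p : Subgroup G),
      (∃ s ∈ (H p : Subgroup G), s⁻¹ * (x₀ * a * x₀⁻¹) ∈ F) → a ∈ F := by
    rintro p a ha ⟨s, hs, hsa⟩
    rw [← hker]
    have h1 : QuotientGroup.mk' F a ∈ itr (Hb p : Subgroup (G ⧸ F)) k := by
      rw [mem_itr, hHb]
      refine ⟨⟨a, ha, rfl⟩, s, hs, ?_⟩
      rw [← hker, map_mul, map_inv, inv_mul_eq_one] at hsa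
      rw [hsa, map_mul, map_mul, map_inv, hx₀]
    rw [hk p, Subgroup.mem_bot] at h1
    exact h1
  obtain ⟨f, hf, h, hh, hmain⟩ := ind_aux (Nat.card G) G rfl F hF H x₀
    (by
      intro p q _ a ha b hb h1 h2
      have h3 := hin p a ha h1
      have h4 := hin q b hb h2
      exact F.mul_mem (F.inv_mem (F.mul_mem h4 h3)) (F.mul_mem h3 h4))
    (by
      intro p a ha h1 g
      have h3 := hin p a ha h1
      exact ⟨1, (H p).one_mem, by
        rw [inv_one, one_mul]
        exact ‹F.Normal›.conj_mem a h3 g⟩) y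
  refine ⟨x₀ * f, fun p => ⟨fun a ha => ?_, h p, hh p, ?_⟩⟩
  · rw [mem_itr] at ha
    refine hin p a ha.1 ⟨_, ha.2, ?_⟩
    rw [← hker]
    have hf1 : QuotientGroup.mk' F f = 1 := (hker f).2 hf
    simp only [map_mul, map_inv, hf1, mul_one, inv_one]
    group
  · intro a ha
    rw [mem_itr] at ha ⊢
    exact ⟨ha.1, hmain p a ha.1 ha.2⟩

end Pool.H77.AS
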