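import Mathlib

/-!
Row S1 (project MP_e5a1a5_AS, PI helper77), about 50 lines: many regular double cosets give many good elements.

PROOF. The map `(k, q, r) ↦ q * x k * r`, `ι × Q × Q → {g | ∀ a ∈ Q, g a g⁻¹ ∈ Q → a = 1}` is injective: `i (q * x k * r) = i (x k)` gives `k`; `q (x k) r = q' (x k) r'` gives
`x k (r r'⁻¹) (x k)⁻¹ = q⁻¹ q' ∈ Q`, so `r r'⁻¹ = 1` and then `q = q'`. It lands in the set: `(q x r) a (q x r)⁻¹ ∈ Q` gives `x (r a r⁻¹) x⁻¹ ∈ Q`, so `r a r⁻¹ = 1`. (`Nat.card_congr`, `Set.ncard_image_of_injective`, `Set.ncard_le_ncard`.)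
The end of `Pool/Agent/H77/AN/D8.lean` (`bad2`) does this for one `x`.
-/

set_option autoImplicit false

namespace Pool.H77.AS

theorem reps_card {G : Type} [Group G] [Finite G] (Q : Subgroup G) {m : ℕ} (x : Fin m → G) (i : G → ℕ)
    (hi : ∀ g, ∀ q ∈ Q, ∀ r ∈ Q, i (q * g * r) = i g) (hinj : Function.Injective fun k => i (x k))
    (hreg : ∀ k, ∀ a ∈ Q, x k * a * (x k)⁻¹ ∈ Q → a = 1) :
    m * Nat.card Q ^ 2 ≤ {g : G | ∀ a ∈ Q, g * a * g⁻¹ ∈ Q → a = 1}.ncard := by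
  set S : Set G := {g : G | ∀ a ∈ Q, g * a * g⁻¹ ∈ Q → a = 1} with hS
  let f : Fin m × Q × Q → G := fun p => (p.2.1 : G) * x p.1 * (p.2.2 : G)
  have hf : Function.Injective f := by
    rintro ⟨k, q, r⟩ ⟨k', q', r'⟩ h
    have h0 : (q : G) * x k * (r : G) = (q' : G) * x k' * (r' : G) := h
    have hk : k = k' := by
      apply hinj
      show i (x k) = i (x k')
      rw [← hi (x k) q q.2 r r.2, ← hi (x k') q' q'.2 r' r'.2, h0]
    subst hk
    have h1 : x k * ((r : G) * (r' : G)⁻¹) * (x k)⁻¹ = (q : G)⁻¹ * (q' : G) := by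
      have h2 : x k * (r : G) = (q : G)⁻¹ * ((q' : G) * x k * (r' : G)) := by
        rw [← h0]; group
      calc x k * ((r : G) * (r' : G)⁻¹) * (x k)⁻¹ = (x k * (r : G)) * (r' : G)⁻¹ * (x k)⁻¹ := by group
        _ = (q : G)⁻¹ * (q' : G) := by rw [h2]; group
    have h3 : (r : G) * (r' : G)⁻¹ = 1 := by
      apply hreg k _ (Q.mul_mem r.2 (Q.inv_mem r'.2))
      rw [h1]
      exact Q.mul_mem (Q.inv_mem q.2) q'.2
    have h4 : (r : G) = (r' : G) := mul_inv_eq_one.mp h3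
    have h5 : (q : G) = (q' : G) := by
      rw [h4] at h0
      exact mul_right_cancel (mul_right_cancel h0)
    rw [Subtype.ext h4, Subtype.ext h5]
  have hsub : Set.range f ⊆ S := by
    rintro g ⟨⟨k, q, r⟩, rfl⟩ a ha h
    have h1 : x k * ((r : G) * a * (r : G)⁻¹) * (x k)⁻¹ ∈ Q := by
      have h2 : x k * ((r : G) * a * (r : G)⁻¹) * (x k)⁻¹
          = (q : G)⁻¹ * (f (k, q, r) * a * (f (k, q, r))⁻¹) * (q : G) := by
        show _ = (q : G)⁻¹ * (((q : G) * x k * (r : G)) * a * ((q : G) * x k * (r : G))⁻¹) * (q : G)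
        group
      rw [h2]
      exact Q.mul_mem (Q.mul_mem (Q.inv_mem q.2) h) q.2
    have h3 : (r : G) * a * (r : G)⁻¹ = 1 :=
      hreg k _ (Q.mul_mem (Q.mul_mem r.2 ha) (Q.inv_mem r.2)) h1
    exact conj_eq_one_iff.mp h3
  have hcard : Nat.card (Fin m × Q × Q) = m * Nat.card Q ^ 2 := by
    rw [Nat.card_prod, Nat.card_prod, Nat.card_eq_fintype_card, Fintype.card_fin, pow_two]
  calc m * Nat.card Q ^ 2 = Nat.card (Fin m × Q × Q) := hcard.symm
    _ = Nat.card (Set.range f) := (Nat.card_range_of_injective hf).symm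
    _ = (Set.range f).ncard := by rw [Nat.card_coe_set_eq]
    _ ≤ S.ncard := Set.ncard_le_ncard hsub (Set.toFinite S)

end Pool.H77.AS
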