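import Pool.Agent.H77.AS.Df
import Pool.Agent.H77.AN.A1

/-!
Row S2 (project MP_e5a1a5_AS, PI helper77), about 120 lines: the standard Sylow 2-subgroup of the symmetric group of degree `n` preserves `lw n`.

PROOF. Strong induction on `n`, compare `exists_syl` in `Pool/Agent/H77/AN/A4.lean`. `n < 2`: `W = ⊥`, no swaps. `n ≥ 2`: `q = n / 2`, `r = n % 2`, `W'` for `Fin q`, `WW 2 W'` (A1: `WW`, `card_WW`, `wr`) on `Fin q × ZMod 2`, embedded in `Perm (Fin n)` by
`(i, b) ↦ 2 i + b` (`b : ZMod 2`, use `b.val`), the last point `2 q` (if `r = 1`) is fixed. (E.g. the equivalence `(Fin q × ZMod 2) ⊕ Fin r ≃ Fin n`, `Equiv.Perm.sumCongrHom`, `Equiv.permCongrHom`.)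
Card: `2 ^ v_2(q!) * 2 ^ q` and `v_2(n!) = q + v_2(q!)` (done in A4). `lw`: for `u, v < 2 q`: `u ≠ v`, `u / 2, v / 2 < q`, `z u / 2 = σ (u / 2)`, so by `lw_rec` the claim is the claim for `σ`; for `u = 2 q` or `v = 2 q` (`n` odd): `lw = 9` if `u ≠ v`.
Swaps: `swap (2 i) (2 i + 1)` is the image of `wr 1 (Pi.single i 1)`.
-/

set_option autoImplicit false
open scoped Classical

namespace Pool.H77.AS

open Equiv Pool.H77.AN

/-- `z` preserves the levels. -/
def Pres {n : ℕ} (z : Perm (Fin n)) : Prop := ∀ u v : Fin n, lw n (z u) (z v) = lw n u v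

/-- The embedding `(i, b) ↦ 2 i + b`. -/
def s2_io (n : ℕ) (x : Fin (n / 2) × ZMod 2) : Fin n :=
  ⟨2 * x.1.val + x.2.val, by have h1 := x.1.isLt; have h2 := ZMod.val_lt x.2; omega⟩

theorem s2_div (n : ℕ) (x : Fin (n / 2) × ZMod 2) : (s2_io n x).val / 2 = x.1.val := by
  have h2 := ZMod.val_lt x.2
  show (2 * x.1.val + x.2.val) / 2 = x.1.val
  omega

theorem s2_inj (n : ℕ) : Function.Injective (s2_io n) := by
  intro x y h
  have h1 : x.1.val = y.1.val := by rw [← s2_div n x, ← s2_div n y, h]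
  have h2 : 2 * x.1.val + x.2.val = 2 * y.1.val + y.2.val := congrArg Fin.val h
  have h3 : x.2.val = y.2.val := by omega
  exact Prod.ext (Fin.ext h1) (ZMod.val_injective 2 h3)

theorem s2_range {n : ℕ} (u : Fin n) : u ∈ Set.range (s2_io n) ↔ u.val / 2 < n / 2 := by
  constructor
  · rintro ⟨x, rfl⟩
    rw [s2_div]
    exact x.1.isLt
  · intro h
    refine ⟨(⟨u.val / 2, h⟩, ((u.val % 2 : ℕ) : ZMod 2)), ?_⟩
    apply Fin.ext
    show 2 * (u.val / 2) + ((u.val % 2 : ℕ) : ZMod 2).val = u.val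
    rw [ZMod.val_natCast_of_lt (by omega)]
    omega

/-- The equivalence with the range. -/
noncomputable def s2_e (n : ℕ) : (Fin (n / 2) × ZMod 2) ≃ Subtype (fun x : Fin n => x ∈ Set.range (s2_io n)) :=
  Equiv.ofInjective (s2_io n) (s2_inj n)

theorem s2_ext_io (n : ℕ) (g : Perm (Fin (n / 2) × ZMod 2)) (x : Fin (n / 2) × ZMod 2) :
    g.extendDomain (s2_e n) (s2_io n x) = s2_io n (g x) := by
  have h := Equiv.Perm.extendDomain_apply_image g (s2_e n) x
  exact h

theorem s2_ext_not (n : ℕ) (g : Perm (Fin (n / 2) × ZMod 2)) (u : Fin n) (h : ¬ u ∈ Set.range (s2_io n)) :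
    g.extendDomain (s2_e n) u = u :=
  Equiv.Perm.extendDomain_apply_not_subtype g (s2_e n) h

theorem s2_pres (n : ℕ) (σ : Perm (Fin (n / 2))) (hσ : Pres σ) (t : Fin (n / 2) → ZMod 2) :
    Pres ((wr σ t).extendDomain (s2_e n)) := by
  intro u v
  have hr : ∀ w : Fin n, ((wr σ t).extendDomain (s2_e n) w).val / 2 < n / 2 ↔ w.val / 2 < n / 2 := by
    intro w
    by_cases hw : w ∈ Set.range (s2_io n)
    · rw [iff_true_right ((s2_range w).1 hw)]
      obtain ⟨x, rfl⟩ := hw
      rw [s2_ext_io, s2_div]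
      exact (wr σ t x).1.isLt
    · rw [s2_ext_not n _ w hw]
  by_cases huv : u = v
  · rw [huv, lw_rec, if_pos rfl, lw_rec, if_pos rfl]
  · have h1 : ¬ (u.val = v.val) := fun h => huv (Fin.ext h)
    have h2 : ¬ (((wr σ t).extendDomain (s2_e n) u).val = ((wr σ t).extendDomain (s2_e n) v).val) :=
      fun h => huv (Equiv.injective _ (Fin.ext h))
    rw [lw_rec n u.val v.val, if_neg h1, lw_rec n _ _, if_neg h2]
    by_cases hb : u.val / 2 < n / 2 ∧ v.val / 2 < n / 2
    · rw [if_pos hb, if_pos ⟨(hr u).2 hb.1, (hr v).2 hb.2⟩]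
      obtain ⟨x, hx⟩ := (s2_range u).2 hb.1
      obtain ⟨y, hy⟩ := (s2_range v).2 hb.2
      rw [← hx, ← hy, s2_ext_io, s2_ext_io, s2_div, s2_div, s2_div, s2_div]
      have h3 := hσ x.1 y.1
      have h4 : (wr σ t x).1 = σ x.1 := rfl
      have h5 : (wr σ t y).1 = σ y.1 := rfl
      rw [h4, h5, h3]
    · have hb' : ¬ (((wr σ t).extendDomain (s2_e n) u).val / 2 < n / 2 ∧
          ((wr σ t).extendDomain (s2_e n) v).val / 2 < n / 2) := by
        rw [hr u, hr v]
        exact hb
      rw [if_neg hb, if_neg hb']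

theorem s2_swap (n i : ℕ) (h : 2 * i + 1 < n) (hi : i < n / 2) :
    (wr (1 : Perm (Fin (n / 2))) (Pi.single (⟨i, hi⟩ : Fin (n / 2)) (1 : ZMod 2))).extendDomain (s2_e n) =
      swap (⟨2 * i, by omega⟩ : Fin n) ⟨2 * i + 1, h⟩ := by
  have hb : ∀ b : ZMod 2, (b + 1).val = 1 - b.val := by decide
  apply Equiv.ext
  intro u
  by_cases hu : u ∈ Set.range (s2_io n)
  · obtain ⟨x, rfl⟩ := hu
    rw [s2_ext_io, wr_apply]
    have h2 := ZMod.val_lt x.2
    by_cases hx : x.1 = ⟨i, hi⟩
    · rw [hx, Pi.single_eq_same]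
      have hxv : x.1.val = i := by rw [hx]
      rcases Nat.eq_zero_or_pos x.2.val with h0 | h0
      · have e1 : s2_io n x = (⟨2 * i, by omega⟩ : Fin n) := by
          apply Fin.ext
          show 2 * x.1.val + x.2.val = 2 * i
          omega
        rw [e1, swap_apply_left]
        apply Fin.ext
        show 2 * i + (x.2 + 1).val = 2 * i + 1
        rw [hb, h0]
      · have e1 : s2_io n x = (⟨2 * i + 1, h⟩ : Fin n) := by
          apply Fin.ext
          show 2 * x.1.val + x.2.val = 2 * i + 1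
          omega
        rw [e1, swap_apply_right]
        apply Fin.ext
        show 2 * i + (x.2 + 1).val = 2 * i
        rw [hb]
        omega
    · rw [Pi.single_eq_of_ne hx, add_zero]
      have hxv : x.1.val ≠ i := fun h0 => hx (Fin.ext h0)
      have e1 : s2_io n x ≠ (⟨2 * i, by omega⟩ : Fin n) := by
        intro h0
        have h3 : 2 * x.1.val + x.2.val = 2 * i := congrArg Fin.val h0
        omega
      have e2 : s2_io n x ≠ (⟨2 * i + 1, h⟩ : Fin n) := by
        intro h0
        have h3 : 2 * x.1.val + x.2.val = 2 * i + 1 := congrArg Fin.val h0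
        omega
      rw [swap_apply_of_ne_of_ne e1 e2]
      rfl
  · rw [s2_ext_not n _ u hu]
    have e0 : ¬ (u.val / 2 < n / 2) := fun h0 => hu ((s2_range u).2 h0)
    have e1 : u ≠ (⟨2 * i, by omega⟩ : Fin n) := by
      intro h0
      apply e0
      have h3 : u.val = 2 * i := congrArg Fin.val h0
      omega
    have e2 : u ≠ (⟨2 * i + 1, h⟩ : Fin n) := by
      intro h0
      apply e0
      have h3 : u.val = 2 * i + 1 := congrArg Fin.val h0
      omega
    rw [swap_apply_of_ne_of_ne e1 e2]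

theorem exists_W (n : ℕ) : ∃ W : Subgroup (Perm (Fin n)), Nat.card W = 2 ^ n.factorial.factorization 2 ∧
    (∀ z ∈ W, Pres z) ∧ ∀ (i : ℕ) (h : 2 * i + 1 < n),
      swap (⟨2 * i, by omega⟩ : Fin n) ⟨2 * i + 1, h⟩ ∈ W := by
  have hp : Nat.Prime 2 := Nat.prime_two
  have : Fact (Nat.Prime 2) := ⟨hp⟩
  induction n using Nat.strong_induction_on with
  | _ n ih =>
    by_cases h : n < 2
    · refine ⟨⊥, ?_, ?_, ?_⟩
      · rw [Nat.factorization_factorial_eq_zero_of_lt h, pow_zero]
        exact Subgroup.card_bot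
      · intro z hz
        rw [Subgroup.mem_bot.1 hz]
        intro u v
        rfl
      · intro i hi
        omega
    · have hq : n / 2 < n := Nat.div_lt_self (by omega) (by omega)
      obtain ⟨W, hW1, hW2, -⟩ := ih (n / 2) hq
      refine ⟨(WW 2 W).map (Equiv.Perm.extendDomainHom (s2_e n)), ?_, ?_, ?_⟩
      · rw [Subgroup.card_map_of_injective (Equiv.Perm.extendDomainHom_injective (s2_e n)), card_WW, hW1,
          Fintype.card_fin, ← pow_add]
        congr 1
        rw [Nat.factorization_def _ hp, Nat.factorization_def _ hp,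
          ← padicValNat_mul_div_factorial n, padicValNat_factorial_mul]
      · intro z hz
        obtain ⟨y, ⟨σ, hσ, t, rfl⟩, rfl⟩ := Subgroup.mem_map.1 hz
        exact s2_pres n σ (hW2 σ hσ) t
      · intro i hi
        have hi2 : i < n / 2 := by omega
        rw [← s2_swap n i hi hi2]
        exact Subgroup.mem_map.2 ⟨_, ⟨1, one_mem _, _, rfl⟩, rfl⟩

end Pool.H77.AS
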