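import Pool.Agent.H77.AS.Df
import Pool.Agent.H77.AS.S2

/-!
Row S4 (project MP_e5a1a5_AS, PI helper77), about 80 lines (uses only the definition `Pres` of S2): the colouring is invariant.

`fn x` is the permutation `x` of `Fin n` as a function on `ℕ`. `sN_eq`: `sN f n = ∑ i ∈ range n, f i = ∑ i : Fin n, f i` (`Finset.sum_range`).
PROOF of `c2_mul`: `c1 n (fn (q x r)) u = ∑ v, FF (lw u v) (lw (q x r u) (q x r v)) 0 = ∑ v, FF (lw (r u) (r v)) (lw (x (r u)) (x (r v))) 0 = ∑ v', FF (lw (r u) v') (lw (x (r u)) (x v')) 0 = c1 n (fn x) (r u)` (`Pres q`, `Pres r`, `Equiv.sum_comp`);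
the same for `c2`, with `c1 n (fn (q x r)) v = c1 n (fn x) (r v)`; the same for `iv`. `reg_of_c2`: `x z = (x z x⁻¹) x`, so `c2 n (fn x) (z u) = c2 n (fn (1 * x * z)) u = c2 n (fn ((x z x⁻¹) * x * 1)) u = c2 n (fn x) u`, hence `z u = u`. (`Pres 1` is clear.)
-/

set_option autoImplicit false

namespace Pool.H77.AS

open Equiv

/-- A permutation of `Fin n` as a function on `ℕ`. -/
def fn {n : ℕ} (x : Perm (Fin n)) (u : ℕ) : ℕ := if h : u < n then (x ⟨u, h⟩ : ℕ) else 0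

theorem fn_val {n : ℕ} (x : Perm (Fin n)) (u : Fin n) : fn x u = (x u : ℕ) := by
  simp [fn]

theorem sN_fin {n : ℕ} (f : ℕ → ℕ) : sN f n = ∑ i : Fin n, f i := by
  rw [sN_eq, Finset.sum_range]

theorem c1_mul {n : ℕ} {q r : Perm (Fin n)} (x : Perm (Fin n)) (hq : Pres q) (hr : Pres r) (u : Fin n) :
    c1 n (fn (q * x * r)) u = c1 n (fn x) (r u) := by
  rw [c1, c1, sN_fin, sN_fin]
  rw [← Equiv.sum_comp r (fun v : Fin n => FF (lw n (r u) v) (lw n (fn x (r u)) (fn x v)) 0)]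
  refine Finset.sum_congr rfl fun v _ => ?_
  rw [fn_val, fn_val, fn_val, fn_val, Perm.mul_apply, Perm.mul_apply, Perm.mul_apply, Perm.mul_apply,
    hq, hr]

theorem c2_mul {n : ℕ} {q r : Perm (Fin n)} (x : Perm (Fin n)) (hq : Pres q) (hr : Pres r) (u : Fin n) :
    c2 n (fn (q * x * r)) u = c2 n (fn x) (r u) := by
  rw [c2, c2, sN_fin, sN_fin]
  rw [← Equiv.sum_comp r (fun v : Fin n => FF (lw n (r u) v) (lw n (fn x (r u)) (fn x v)) (c1 n (fn x) v))]
  refine Finset.sum_congr rfl fun v _ => ?_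
  rw [fn_val, fn_val, fn_val, fn_val, Perm.mul_apply, Perm.mul_apply, Perm.mul_apply, Perm.mul_apply,
    hq, hr, c1_mul x hq hr]

theorem iv_mul {n : ℕ} {q r : Perm (Fin n)} (x : Perm (Fin n)) (hq : Pres q) (hr : Pres r) :
    iv n (fn (q * x * r)) = iv n (fn x) := by
  rw [iv, iv, sN_fin, sN_fin]
  rw [← Equiv.sum_comp r (fun v : Fin n => (c2 n (fn x) v + 11) ^ 3 % 1000000007)]
  refine Finset.sum_congr rfl fun v _ => ?_
  rw [c2_mul x hq hr]

theorem reg_of_c2 {n : ℕ} {x z : Perm (Fin n)} (hz : Pres z) (hxz : Pres (x * z * x⁻¹))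
    (hd : Function.Injective fun u : Fin n => c2 n (fn x) u) : z = 1 := by
  have h1 : Pres (1 : Perm (Fin n)) := fun u v => rfl
  ext u
  have h2 := c2_mul x h1 hz u
  have h3 := c2_mul x hxz h1 u
  have h4 : 1 * x * z = x * z * x⁻¹ * x * 1 := by group
  rw [h4, h3] at h2
  have h5 := hd h2
  rw [← h5]

end Pool.H77.AS
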