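import Pool.Agent.H77.AN.B4

/-!
Project MP_e5a1a5_AS (helper77): two parts of `bad_countS` (row B4 of MP_e5a1a5_AN) as separate statements.
-/

set_option autoImplicit false
open scoped Classical

namespace Pool.H77.AS

open Equiv Pool.H77.AN

variable {α : Type} [Fintype α] [DecidableEq α] {p : ℕ}

theorem sum_conj (P : Finset (Perm α)) : ∑ x : Perm α, (P.filter fun a => x * a * x⁻¹ ∈ P).card =
    ∑ a ∈ P, ∑ h ∈ P, (Finset.univ.filter fun x : Perm α => x * a * x⁻¹ = h).card := by
  have e1 : ∀ x : Perm α, (P.filter fun a => x * a * x⁻¹ ∈ P).card =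
      ∑ a ∈ P, ∑ h ∈ P, if x * a * x⁻¹ = h then 1 else 0 := by
    intro x
    rw [Finset.card_filter]
    refine Finset.sum_congr rfl fun a _ => ?_
    rw [Finset.sum_ite_eq]
  rw [Finset.sum_congr rfl fun x _ => e1 x, Finset.sum_comm]
  refine Finset.sum_congr rfl fun a _ => ?_
  rw [Finset.sum_comm]
  refine Finset.sum_congr rfl fun h _ => ?_
  rw [Finset.card_filter]

theorem sum_le_SpS (hp : p.Prime) (H : Subgroup (Perm α)) (hH : IsPGroup p H) (P : Finset (Perm α))
    (hmP : ∀ a ∈ P, a ∈ H ∧ a ^ p = 1 ∧ a ≠ 1) :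
    ∑ x : Perm α, (P.filter fun a => x * a * x⁻¹ ∈ P).card ≤ SpS p (Fintype.card α) := by
  have hpf : Fact p.Prime := ⟨hp⟩
  rw [sum_conj, SpS_eq]
  have hk : ∀ a ∈ P, a.support.card = p * (a.support.card / p) ∧
      a.support.card / p ∈ Finset.Icc 1 (Fintype.card α / p) := by
    intro a ha
    replace ha := hmP a ha
    have h1 := dvd_supp hp ha.2.1
    have h2 := Nat.mul_div_cancel' h1
    have h3 : a.support.card ≤ Fintype.card α := Finset.card_le_univ _
    have h4 : 0 < a.support.card := by
      rw [Finset.card_pos]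
      rw [Finset.nonempty_iff_ne_empty]
      intro h
      exact ha.2.2 (Perm.support_eq_empty_iff.1 h)
    refine ⟨h2.symm, Finset.mem_Icc.2 ⟨?_, Nat.div_le_div_right h3⟩⟩
    rw [Nat.one_le_iff_ne_zero]
    intro h5
    rw [h5, mul_zero] at h2
    omega
  rw [← Finset.sum_fiberwise_of_maps_to (g := fun a : Perm α => a.support.card / p)
    (t := Finset.Icc 1 (Fintype.card α / p)) (fun a ha => (hk a ha).2)]
  refine Finset.sum_le_sum fun k _ => ?_
  -- the class k
  have hcard : (P.filter fun a => a.support.card / p = k).card ≤ cnt p (Fintype.card α) k := by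
    refine le_trans ?_ (nz_le H hH k)
    unfold nz
    rw [← Set.ncard_coe_finset]
    refine Set.ncard_le_ncard ?_ (Set.toFinite _)
    intro a ha
    rw [Finset.mem_coe, Finset.mem_filter] at ha
    have h1 := hmP a ha.1
    refine ⟨h1.1, h1.2.1, ?_⟩
    rw [← ha.2]
    exact (hk a ha.1).1
  obtain ⟨c, hc⟩ : ∃ c, c = (Fintype.card α - p * k).factorial * p ^ k * k.factorial := ⟨_, rfl⟩
  rw [← hc]
  have h3 : ∀ a ∈ P.filter (fun a => a.support.card / p = k),
      ∑ h ∈ P, (Finset.univ.filter fun x : Perm α => x * a * x⁻¹ = h).card ≤ cnt p (Fintype.card α) k * c := by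
    intro a ha
    rw [Finset.mem_filter] at ha
    have h4 : ∑ h ∈ P, (Finset.univ.filter fun x : Perm α => x * a * x⁻¹ = h).card =
        ∑ h ∈ P.filter (fun a => a.support.card / p = k),
          (Finset.univ.filter fun x : Perm α => x * a * x⁻¹ = h).card := by
      symm
      apply Finset.sum_filter_of_ne
      intro h hh hne
      obtain ⟨x, hx⟩ := Finset.card_pos.1 (Nat.pos_of_ne_zero hne)
      rw [Finset.mem_filter] at hx
      rw [← hx.2, Perm.card_support_conj]
      exact ha.2
    rw [h4]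
    have h5 : ∑ h ∈ P.filter (fun a => a.support.card / p = k),
        (Finset.univ.filter fun x : Perm α => x * a * x⁻¹ = h).card ≤
        ∑ _h ∈ P.filter (fun a => a.support.card / p = k), c := by
      refine Finset.sum_le_sum fun h _ => ?_
      rw [hc]
      refine conj_card_B4 hp (hmP a ha.1).2.1 ?_ h
      rw [← ha.2]
      exact (hk a ha.1).1
    rw [Finset.sum_const, smul_eq_mul] at h5
    exact h5.trans (Nat.mul_le_mul_right c hcard)
  refine (Finset.sum_le_sum h3).trans ?_
  rw [Finset.sum_const, smul_eq_mul, pow_two, mul_assoc]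
  exact Nat.mul_le_mul_right _ hcard

end Pool.H77.AS
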